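import Pool.Agent.Helper59_Green.Defs

set_option autoImplicit false

namespace Pool.Agent.Helper59_Green

instance (G : Type) [Group G] : CoeSort (FinGSet G) Type := ⟨FinGSet.carrier⟩

instance {G : Type} [Group G] (X Y : FinGSet G) : CoeFun (GMap X Y) (fun _ => X → Y) :=
  ⟨GMap.toFun⟩

section

variable {G : Type} [Group G]

theorem GMap.map_smul' {X Y : FinGSet G} (f : GMap X Y) (g : G) (x : X) :
    f (g • x) = g • f x := f.equivariant g x

namespace GreenFunctor

variable (Q : GreenFunctor G)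

def resH {X Y : FinGSet G} (f : GMap X Y) : Q.obj Y →+* Q.obj X :=
  RingHom.mk' ⟨⟨Q.res f, Q.res_one f⟩, Q.res_mul f⟩ (Q.mackey.res_add f)

def trH {X Y : FinGSet G} (f : GMap X Y) : Q.obj X →+ Q.obj Y :=
  AddMonoidHom.mk' (Q.tr f) (Q.mackey.tr_add f)

theorem res_id' (X : FinGSet G) (a : Q.obj X) : Q.resH (GMap.id X) a = a :=
  Q.mackey.res_id X a
theorem tr_id' (X : FinGSet G) (a : Q.obj X) : Q.trH (GMap.id X) a = a :=
  Q.mackey.tr_id X a
theorem res_comp' {X Y Z : FinGSet G} (f : GMap X Y) (g : GMap Y Z) (a : Q.obj Z) :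
    Q.resH (g.comp f) a = Q.resH f (Q.resH g a) := Q.mackey.res_comp f g a
theorem tr_comp' {X Y Z : FinGSet G} (f : GMap X Y) (g : GMap Y Z) (a : Q.obj X) :
    Q.trH (g.comp f) a = Q.trH g (Q.trH f a) := Q.mackey.tr_comp f g a
theorem base_change' {P X Y Z : FinGSet G} (p : GMap P X) (q : GMap P Y) (f : GMap X Z)
    (g : GMap Y Z) (h : IsPullbackSquare p q f g) (a : Q.obj X) :
    Q.resH g (Q.trH f a) = Q.trH q (Q.resH p a) := Q.mackey.base_change p q f g h a
theorem frobenius' {X Y : FinGSet G} (f : GMap X Y) (a : Q.obj X) (b : Q.obj Y) :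
    Q.trH f (a * Q.resH f b) = Q.trH f a * b := Q.frobenius f a b

end GreenFunctor

theorem GreenFunctor.Hom.hom_res {R S : GreenFunctor G} (φ : GreenFunctor.Hom R S)
    {X Y : FinGSet G} (f : GMap X Y) (r : R.obj Y) :
    φ.hom X (R.resH f r) = S.resH f (φ.hom Y r) := φ.app_res f r

theorem GreenFunctor.Hom.hom_tr {R S : GreenFunctor G} (φ : GreenFunctor.Hom R S)
    {X Y : FinGSet G} (f : GMap X Y) (r : R.obj X) :
    φ.hom Y (R.trH f r) = S.trH f (φ.hom X r) := φ.app_tr f r

namespace GModule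

variable {R : GreenFunctor G} (M : GModule R)

def resH {X Y : FinGSet G} (f : GMap X Y) : M.obj Y →+ M.obj X :=
  AddMonoidHom.mk' (M.res f) (M.mackey.res_add f)

def trH {X Y : FinGSet G} (f : GMap X Y) : M.obj X →+ M.obj Y :=
  AddMonoidHom.mk' (M.tr f) (M.mackey.tr_add f)

/-- the component of a homomorphism, as a linear map -/
def Hom.hom {M N : GModule R} (φ : GModule.Hom M N) (X : FinGSet G) :
    M.obj X →ₗ[R.obj X] N.obj X where
  toFun := φ.app X
  map_add' := φ.app_add X
  map_smul' := φ.app_smul X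

theorem Hom.hom_res {M N : GModule R} (φ : GModule.Hom M N) {X Y : FinGSet G} (f : GMap X Y)
    (m : M.obj Y) : φ.hom X (M.resH f m) = N.resH f (φ.hom Y m) := φ.app_res f m

theorem Hom.hom_tr {M N : GModule R} (φ : GModule.Hom M N) {X Y : FinGSet G} (f : GMap X Y)
    (m : M.obj X) : φ.hom Y (M.trH f m) = N.trH f (φ.hom X m) := φ.app_tr f m

/-- build a homomorphism from linear maps -/
def Hom.mk' {M N : GModule R} (app : ∀ X, M.obj X →ₗ[R.obj X] N.obj X)
    (h1 : ∀ {X Y : FinGSet G} (f : GMap X Y) (m : M.obj Y),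
      app X (M.resH f m) = N.resH f (app Y m))
    (h2 : ∀ {X Y : FinGSet G} (f : GMap X Y) (m : M.obj X),
      app Y (M.trH f m) = N.trH f (app X m)) : GModule.Hom M N where
  app := fun X => app X
  app_add := fun X => (app X).map_add
  app_smul := fun X => (app X).map_smul
  app_res := h1
  app_tr := h2

end GModule

/-- build a homomorphism from ring homs -/
def GreenFunctor.Hom.mk' {R S : GreenFunctor G} (app : ∀ X, R.obj X →+* S.obj X)
    (h1 : ∀ {X Y : FinGSet G} (f : GMap X Y) (m : R.obj Y),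
      app X (R.resH f m) = S.resH f (app Y m))
    (h2 : ∀ {X Y : FinGSet G} (f : GMap X Y) (m : R.obj X),
      app Y (R.trH f m) = S.trH f (app X m)) : GreenFunctor.Hom R S where
  app := fun X => app X
  app_one := fun X => (app X).map_one
  app_add := fun X => (app X).map_add
  app_mul := fun X => (app X).map_mul
  app_res := h1
  app_tr := h2

namespace Pairing

variable {R : GreenFunctor G} {M N P : GModule R} (θ : Pairing M N P)

def bil (X : FinGSet G) : M.obj X →ₗ[R.obj X] N.obj X →ₗ[R.obj X] P.obj X :=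
  LinearMap.mk₂ (R.obj X) (θ.map X) (θ.add_left X) (fun c m n => θ.smul_left X c m n)
    (θ.add_right X) (fun c m n => θ.smul_right X c m n)

theorem res_bil {X Y : FinGSet G} (f : GMap X Y) (m : M.obj Y) (n : N.obj Y) :
    P.resH f (θ.bil Y m n) = θ.bil X (M.resH f m) (N.resH f n) := θ.res_map f m n
theorem tr_left' {X Y : FinGSet G} (f : GMap X Y) (m : M.obj X) (n : N.obj Y) :
    P.trH f (θ.bil X m (N.resH f n)) = θ.bil Y (M.trH f m) n := θ.tr_left f m n
theorem tr_right' {X Y : FinGSet G} (f : GMap X Y) (m : M.obj Y) (n : N.obj X) :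
    P.trH f (θ.bil X (M.resH f m) n) = θ.bil Y m (N.trH f n) := θ.tr_right f m n

/-- build a pairing from bilinear maps -/
def mk' {M N P : GModule R} (map : ∀ X, M.obj X →ₗ[R.obj X] N.obj X →ₗ[R.obj X] P.obj X)
    (h1 : ∀ {X Y : FinGSet G} (f : GMap X Y) (m : M.obj Y) (n : N.obj Y),
      P.resH f (map Y m n) = map X (M.resH f m) (N.resH f n))
    (h2 : ∀ {X Y : FinGSet G} (f : GMap X Y) (m : M.obj X) (n : N.obj Y),
      P.trH f (map X m (N.resH f n)) = map Y (M.trH f m) n)
    (h3 : ∀ {X Y : FinGSet G} (f : GMap X Y) (m : M.obj Y) (n : N.obj X),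
      P.trH f (map X (M.resH f m) n) = map Y m (N.trH f n)) : Pairing M N P where
  map := fun X m n => map X m n
  add_left := fun X m m' n => by rw [map_add, LinearMap.add_apply]
  add_right := fun X m n n' => by rw [map_add]
  smul_left := fun X r m n => by rw [map_smul, LinearMap.smul_apply]
  smul_right := fun X r m n => by rw [map_smul]
  res_map := h1
  tr_left := h2
  tr_right := h3

end Pairing

end

end Pool.Agent.Helper59_Green
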