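import Mathlib

set_option autoImplicit false

namespace Pool.Agent.Helper59_Green

/-- A finite `G`-set. -/
structure FinGSet (G : Type) [Group G] where
  /-- the underlying type -/
  carrier : Type
  [finite : Finite carrier]
  [action : MulAction G carrier]

attribute [instance] FinGSet.finite FinGSet.action

/-- The orbit `G/H` as a finite `G`-set. -/
def FinGSet.orbit {G : Type} [Group G] [Finite G] (H : Subgroup G) : FinGSet G where
  carrier := G ⧸ H

/-- A `G`-equivariant map. -/
structure GMap {G : Type} [Group G] (X Y : FinGSet G) where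
  /-- the underlying function -/
  toFun : X.carrier → Y.carrier
  equivariant : ∀ (g : G) (x : X.carrier), toFun (g • x) = g • toFun x

/-- The identity map. -/
def GMap.id {G : Type} [Group G] (X : FinGSet G) : GMap X X where
  toFun := fun x => x
  equivariant := fun _ _ => rfl

theorem GMap.comp_equivariant {G : Type} [Group G] {X Y Z : FinGSet G} (g : GMap Y Z)
    (f : GMap X Y) (a : G) (x : X.carrier) :
    g.toFun (f.toFun (a • x)) = a • g.toFun (f.toFun x) := by
  rw [f.equivariant, g.equivariant]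

/-- The composition of `G`-maps. -/
def GMap.comp {G : Type} [Group G] {X Y Z : FinGSet G} (g : GMap Y Z) (f : GMap X Y) :
    GMap X Z where
  toFun := fun x => g.toFun (f.toFun x)
  equivariant := GMap.comp_equivariant g f

/-- The square `p : P → X`, `q : P → Y`, `f : X → Z`, `g : Y → Z` of `G`-sets is a pullback. -/
def IsPullbackSquare {G : Type} [Group G] {P X Y Z : FinGSet G}
    (p : GMap P X) (q : GMap P Y) (f : GMap X Z) (g : GMap Y Z) : Prop :=
  (∀ a, f.toFun (p.toFun a) = g.toFun (q.toFun a)) ∧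
    ∀ x y, f.toFun x = g.toFun y → ∃! a, p.toFun a = x ∧ q.toFun a = y

/-- The axioms of a Mackey functor (Dress) for a family of abelian groups `M X`, indexed by
the finite `G`-sets, with restrictions `res f : M Y → M X` and transfers `tr f : M X → M Y`
for each `G`-map `f : X → Y`. -/
structure IsMackey {G : Type} [Group G] (M : FinGSet G → Type) [∀ X, AddCommGroup (M X)]
    (res : ∀ {X Y : FinGSet G}, GMap X Y → M Y → M X)
    (tr : ∀ {X Y : FinGSet G}, GMap X Y → M X → M Y) : Prop where
  res_add : ∀ {X Y : FinGSet G} (f : GMap X Y) (a b : M Y), res f (a + b) = res f a + res f b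
  tr_add : ∀ {X Y : FinGSet G} (f : GMap X Y) (a b : M X), tr f (a + b) = tr f a + tr f b
  res_id : ∀ (X : FinGSet G) (a : M X), res (GMap.id X) a = a
  tr_id : ∀ (X : FinGSet G) (a : M X), tr (GMap.id X) a = a
  res_comp : ∀ {X Y Z : FinGSet G} (f : GMap X Y) (g : GMap Y Z) (a : M Z),
    res (g.comp f) a = res f (res g a)
  tr_comp : ∀ {X Y Z : FinGSet G} (f : GMap X Y) (g : GMap Y Z) (a : M X),
    tr (g.comp f) a = tr g (tr f a)
  base_change : ∀ {P X Y Z : FinGSet G} (p : GMap P X) (q : GMap P Y) (f : GMap X Z)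
    (g : GMap Y Z), IsPullbackSquare p q f g → ∀ a : M X, res g (tr f a) = tr q (res p a)
  additive : ∀ {X Y Z : FinGSet G} (i : GMap X Z) (j : GMap Y Z),
    Function.Bijective (Sum.elim i.toFun j.toFun) →
    Function.Bijective (fun a : M Z => (res i a, res j a))
  empty : ∀ X : FinGSet G, IsEmpty X.carrier → Subsingleton (M X)

/-- A commutative Green functor for `G`: a Mackey functor whose values are commutative rings,
whose restrictions are ring homomorphisms, and which satisfies Frobenius reciprocity. -/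
structure GreenFunctor (G : Type) [Group G] where
  obj : FinGSet G → Type
  [ring : ∀ X, CommRing (obj X)]
  res : ∀ {X Y : FinGSet G}, GMap X Y → obj Y → obj X
  tr : ∀ {X Y : FinGSet G}, GMap X Y → obj X → obj Y
  mackey : IsMackey obj res tr
  res_one : ∀ {X Y : FinGSet G} (f : GMap X Y), res f 1 = 1
  res_mul : ∀ {X Y : FinGSet G} (f : GMap X Y) (a b : obj Y), res f (a * b) = res f a * res f b
  frobenius : ∀ {X Y : FinGSet G} (f : GMap X Y) (a : obj X) (b : obj Y),
    tr f (a * res f b) = tr f a * b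

attribute [instance] GreenFunctor.ring

/-- A module over a commutative Green functor `R`. -/
structure GModule {G : Type} [Group G] (R : GreenFunctor G) where
  obj : FinGSet G → Type
  [grp : ∀ X, AddCommGroup (obj X)]
  [mod : ∀ X, Module (R.obj X) (obj X)]
  res : ∀ {X Y : FinGSet G}, GMap X Y → obj Y → obj X
  tr : ∀ {X Y : FinGSet G}, GMap X Y → obj X → obj Y
  mackey : IsMackey obj res tr
  res_smul : ∀ {X Y : FinGSet G} (f : GMap X Y) (r : R.obj Y) (m : obj Y),
    res f (r • m) = R.res f r • res f m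
  tr_smul : ∀ {X Y : FinGSet G} (f : GMap X Y) (r : R.obj Y) (m : obj X),
    tr f (R.res f r • m) = r • tr f m
  smul_tr : ∀ {X Y : FinGSet G} (f : GMap X Y) (r : R.obj X) (m : obj Y),
    tr f (r • res f m) = R.tr f r • m

attribute [instance] GModule.grp GModule.mod

/-- Homomorphisms of `R`-modules. -/
structure GModule.Hom {G : Type} [Group G] {R : GreenFunctor G} (M N : GModule R) where
  app : ∀ X, M.obj X → N.obj X
  app_add : ∀ X (m m' : M.obj X), app X (m + m') = app X m + app X m'
  app_smul : ∀ X (r : R.obj X) (m : M.obj X), app X (r • m) = r • app X m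
  app_res : ∀ {X Y : FinGSet G} (f : GMap X Y) (m : M.obj Y), app X (M.res f m) = N.res f (app Y m)
  app_tr : ∀ {X Y : FinGSet G} (f : GMap X Y) (m : M.obj X), app Y (M.tr f m) = N.tr f (app X m)

/-- Homomorphisms of commutative Green functors. -/
structure GreenFunctor.Hom {G : Type} [Group G] (R S : GreenFunctor G) where
  app : ∀ X, R.obj X → S.obj X
  app_one : ∀ X, app X 1 = 1
  app_add : ∀ X (r r' : R.obj X), app X (r + r') = app X r + app X r'
  app_mul : ∀ X (r r' : R.obj X), app X (r * r') = app X r * app X r'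
  app_res : ∀ {X Y : FinGSet G} (f : GMap X Y) (r : R.obj Y), app X (R.res f r) = S.res f (app Y r)
  app_tr : ∀ {X Y : FinGSet G} (f : GMap X Y) (r : R.obj X), app Y (R.tr f r) = S.tr f (app X r)

/-- The component at `X` of a homomorphism of Green functors, as a ring homomorphism. -/
def GreenFunctor.Hom.hom {G : Type} [Group G] {R S : GreenFunctor G}
    (φ : GreenFunctor.Hom R S) (X : FinGSet G) : R.obj X →+* S.obj X :=
  RingHom.mk' ⟨⟨φ.app X, φ.app_one X⟩, φ.app_mul X⟩ (φ.app_add X)

theorem GreenFunctor.Hom.res_smul_aux {G : Type} [Group G] {R S : GreenFunctor G}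
    (φ : GreenFunctor.Hom R S) {X Y : FinGSet G} (f : GMap X Y) (r : R.obj Y) (m : S.obj Y) :
    S.res f (φ.app Y r * m) = φ.app X (R.res f r) * S.res f m := by
  rw [S.res_mul, φ.app_res]

theorem GreenFunctor.Hom.tr_smul_aux {G : Type} [Group G] {R S : GreenFunctor G}
    (φ : GreenFunctor.Hom R S) {X Y : FinGSet G} (f : GMap X Y) (r : R.obj Y) (m : S.obj X) :
    S.tr f (φ.app X (R.res f r) * m) = φ.app Y r * S.tr f m := by
  rw [φ.app_res, mul_comm, S.frobenius, mul_comm]

theorem GreenFunctor.Hom.smul_tr_aux {G : Type} [Group G] {R S : GreenFunctor G}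
    (φ : GreenFunctor.Hom R S) {X Y : FinGSet G} (f : GMap X Y) (r : R.obj X) (m : S.obj Y) :
    S.tr f (φ.app X r * S.res f m) = φ.app Y (R.tr f r) * m := by
  rw [S.frobenius, φ.app_tr]

/-- A commutative `R`-algebra `φ : R → S`, regarded as an `R`-module. -/
def GreenFunctor.Hom.toModule {G : Type} [Group G] {R S : GreenFunctor G}
    (φ : GreenFunctor.Hom R S) : GModule R where
  obj := S.obj
  grp := fun _ => inferInstance
  mod := fun X => (φ.hom X).toModule
  res := S.res
  tr := S.tr
  mackey := S.mackey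
  res_smul := φ.res_smul_aux
  tr_smul := φ.tr_smul_aux
  smul_tr := φ.smul_tr_aux

/-- A family of `R(X)`-bilinear maps `M(X) × N(X) → P(X)`. -/
structure Bilinear {G : Type} [Group G] {R : GreenFunctor G} (M N P : GModule R) where
  map : ∀ X, M.obj X → N.obj X → P.obj X
  add_left : ∀ X (m m' : M.obj X) (n : N.obj X), map X (m + m') n = map X m n + map X m' n
  add_right : ∀ X (m : M.obj X) (n n' : N.obj X), map X m (n + n') = map X m n + map X m n'
  smul_left : ∀ X (r : R.obj X) (m : M.obj X) (n : N.obj X), map X (r • m) n = r • map X m n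
  smul_right : ∀ X (r : R.obj X) (m : M.obj X) (n : N.obj X), map X m (r • n) = r • map X m n

/-- An `R`-bilinear pairing `M × N → P` of `R`-modules, in the sense of Dress: it is compatible
with restrictions and satisfies Frobenius reciprocity on both sides. -/
structure Pairing {G : Type} [Group G] {R : GreenFunctor G} (M N P : GModule R)
    extends Bilinear M N P where
  res_map : ∀ {X Y : FinGSet G} (f : GMap X Y) (m : M.obj Y) (n : N.obj Y),
    P.res f (map Y m n) = map X (M.res f m) (N.res f n)
  tr_left : ∀ {X Y : FinGSet G} (f : GMap X Y) (m : M.obj X) (n : N.obj Y),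
    P.tr f (map X m (N.res f n)) = map Y (M.tr f m) n
  tr_right : ∀ {X Y : FinGSet G} (f : GMap X Y) (m : M.obj Y) (n : N.obj X),
    P.tr f (map X (M.res f m) n) = map Y m (N.tr f n)

/-- `θ : M × N → T` exhibits `T` as the box product `M ⊠_R N` over `R`: every `R`-bilinear
pairing `M × N → P` factors uniquely through `θ`. -/
def Pairing.IsBoxProduct {G : Type} [Group G] {R : GreenFunctor G} {M N T : GModule R}
    (θ : Pairing M N T) : Prop :=
  ∀ (P : GModule R) (ψ : Pairing M N P),
    ∃! h : GModule.Hom T P, ∀ X m n, h.app X (θ.map X m n) = ψ.map X m n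

/-- The sequence `N₁ → N₂ → N₃` of `R`-modules is exact (at `N₂`). -/
def IsExact {G : Type} [Group G] {R : GreenFunctor G} {N₁ N₂ N₃ : GModule R}
    (f : GModule.Hom N₁ N₂) (g : GModule.Hom N₂ N₃) : Prop :=
  ∀ X, Function.Exact (f.app X) (g.app X)

/-- `F : T₁ → T₂` is the map `M ⊠_R f : M ⊠_R N₁ → M ⊠_R N₂` induced by `f : N₁ → N₂`,
where `θ₁`, `θ₂` exhibit `T₁`, `T₂` as box products. -/
def IsInduced {G : Type} [Group G] {R : GreenFunctor G} {M N₁ N₂ T₁ T₂ : GModule R}
    (θ₁ : Pairing M N₁ T₁) (θ₂ : Pairing M N₂ T₂) (f : GModule.Hom N₁ N₂)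
    (F : GModule.Hom T₁ T₂) : Prop :=
  ∀ X m n, F.app X (θ₁.map X m n) = θ₂.map X m (f.app X n)

/-- `M` is flat: `M ⊠_R (-)` is an exact functor on `R`-modules, that is, it takes exact
sequences `N₁ → N₂ → N₃` to exact sequences `M ⊠_R N₁ → M ⊠_R N₂ → M ⊠_R N₃`. -/
def GModule.IsFlat {G : Type} [Group G] {R : GreenFunctor G} (M : GModule R) : Prop :=
  ∀ (N₁ N₂ N₃ : GModule R) (f : GModule.Hom N₁ N₂) (g : GModule.Hom N₂ N₃), IsExact f g →
    ∀ (T₁ T₂ T₃ : GModule R) (θ₁ : Pairing M N₁ T₁) (θ₂ : Pairing M N₂ T₂)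
      (θ₃ : Pairing M N₃ T₃), θ₁.IsBoxProduct → θ₂.IsBoxProduct → θ₃.IsBoxProduct →
    ∀ (F : GModule.Hom T₁ T₂) (K : GModule.Hom T₂ T₃),
      IsInduced θ₁ θ₂ f F → IsInduced θ₂ θ₃ g K → IsExact F K

/-- `φ : R → S` exhibits `S` as the localization `R[b⁻¹]` for `b ∈ R(G/H)`: the image of `b`
in `S(G/H)` is a unit and `S` is initial among the commutative `R`-algebras with this property. -/
def IsLocalizationAt {G : Type} [Group G] [Finite G] {H : Subgroup G} {R S : GreenFunctor G}
    (φ : GreenFunctor.Hom R S) (b : R.obj (FinGSet.orbit H)) : Prop :=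
  IsUnit (φ.app _ b) ∧
    ∀ (S' : GreenFunctor G) (φ' : GreenFunctor.Hom R S'), IsUnit (φ'.app _ b) →
      ∃! h : GreenFunctor.Hom S S', ∀ X r, h.app X (φ.app X r) = φ'.app X r

end Pool.Agent.Helper59_Green
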