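import Pool.Agent.Helper59_Green.Fun

set_option autoImplicit false

open scoped Polynomial LaurentPolynomial
open Polynomial (toLaurent)

namespace Pool.Agent.Helper59_Green

/-- The group of order two. -/
abbrev G2 : Type := ℤˣ

theorem map_neg_smul {X Y : FinGSet G2} (f : GMap X Y) (x : X) :
    f ((-1 : G2) • x) = (-1 : G2) • f x := f.equivariant _ _

theorem neg_neg_smul {X : FinGSet G2} (x : X) : (-1 : G2) • (-1 : G2) • x = x := by
  rw [smul_smul]; simp

/-- a choice of one point from each free orbit -/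
theorem exists_rep (X : FinGSet G2) :
    ∃ Rep : X → Prop, ∀ x, (-1 : G2) • x ≠ x → (Rep ((-1 : G2) • x) ↔ ¬ Rep x) := by
  obtain ⟨n, ⟨e⟩⟩ := Finite.exists_equiv_fin X
  refine ⟨fun x => e x < e ((-1 : G2) • x), fun x hx => ?_⟩
  change e ((-1 : G2) • x) < e ((-1 : G2) • (-1 : G2) • x) ↔ ¬ (e x < e ((-1 : G2) • x))
  rw [neg_neg_smul, not_lt]
  constructor
  · intro h; exact h.le
  · intro h
    rcases h.lt_or_eq with h | h
    · exact h
    · exact absurd (e.injective h) hx

/-- Sum over a fibre, split into fixed points and twice the representatives. -/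
theorem fiberSum_split {X Y : FinGSet G2} {B : Type} [AddCommMonoid B] (f : GMap X Y)
    (φ : X → B) (hφ : ∀ x, φ ((-1 : G2) • x) = φ x) (y : Y) (hy : (-1 : G2) • y = y) :
    ∃ b : B, fiberSum f φ y =
      fiberSum (fun x : {x : X // (-1 : G2) • x = x} => f x.1) (fun x => φ x.1) y + (b + b) := by
  classical
  obtain ⟨Rep, hRep⟩ := exists_rep X
  let _ : Fintype X := Fintype.ofFinite X
  refine ⟨∑ x ∈ (Finset.univ.filter fun x : X => f x = y ∧ (-1 : G2) • x ≠ x ∧ Rep x), φ x, ?_⟩
  rw [fiberSum_def f φ y (Finset.univ.filter fun x : X => f x = y) (by simp)]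
  rw [fiberSum_def (fun x : {x : X // (-1 : G2) • x = x} => f x.1) (fun x => φ x.1) y
    (Finset.univ.filter fun x => f x.1 = y) (by simp)]
  have h1 : ∑ x ∈ (Finset.univ.filter fun x : {x : X // (-1 : G2) • x = x} => f x.1 = y), φ x.1
      = ∑ x ∈ (Finset.univ.filter fun x : X => f x = y ∧ (-1 : G2) • x = x), φ x := by
    apply Finset.sum_bij (fun x _ => x.1)
    · intro x hx
      simp only [Finset.mem_filter, Finset.mem_univ, true_and] at hx ⊢
      exact ⟨hx, x.2⟩
    · intro x _ x' _ h
      exact Subtype.ext h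
    · intro x hx
      simp only [Finset.mem_filter, Finset.mem_univ, true_and] at hx
      exact ⟨⟨x, hx.2⟩, by simpa using hx.1, rfl⟩
    · intro x _; rfl
  have h2 : ∑ x ∈ (Finset.univ.filter fun x : X => f x = y ∧ (-1 : G2) • x ≠ x ∧ ¬ Rep x), φ x
      = ∑ x ∈ (Finset.univ.filter fun x : X => f x = y ∧ (-1 : G2) • x ≠ x ∧ Rep x), φ x := by
    apply Finset.sum_bij (fun x _ => (-1 : G2) • x)
    · intro x hx
      simp only [Finset.mem_filter, Finset.mem_univ, true_and] at hx ⊢
      refine ⟨by rw [map_neg_smul, hx.1, hy], ?_, (hRep x hx.2.1).2 hx.2.2⟩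
      rw [neg_neg_smul]; exact fun h => hx.2.1 h.symm
    · intro x _ x' _ h
      exact smul_left_cancel _ h
    · intro x hx
      simp only [Finset.mem_filter, Finset.mem_univ, true_and] at hx
      refine ⟨(-1 : G2) • x, ?_, neg_neg_smul x⟩
      simp only [Finset.mem_filter, Finset.mem_univ, true_and]
      refine ⟨by rw [map_neg_smul, hx.1, hy], ?_, ?_⟩
      · rw [neg_neg_smul]; exact fun h => hx.2.1 h.symm
      · rw [hRep x hx.2.1]; exact fun h => h hx.2.2
    · intro x _; exact (hφ x).symm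
  rw [h1]
  conv_rhs => rw [← h2]
  rw [h2]
  have h3 : (Finset.univ.filter fun x : X => f x = y) =
      (Finset.univ.filter fun x : X => f x = y ∧ (-1 : G2) • x = x) ∪
      ((Finset.univ.filter fun x : X => f x = y ∧ (-1 : G2) • x ≠ x ∧ Rep x) ∪
       (Finset.univ.filter fun x : X => f x = y ∧ (-1 : G2) • x ≠ x ∧ ¬ Rep x)) := by
    ext x
    simp only [Finset.mem_filter, Finset.mem_univ, true_and, Finset.mem_union]
    tauto
  rw [h3, Finset.sum_union, Finset.sum_union, h2]
  · rw [Finset.disjoint_left]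
    intro x hx hx'
    simp only [Finset.mem_filter, Finset.mem_univ, true_and] at hx hx'
    exact hx'.2.2 hx.2.2
  · rw [Finset.disjoint_left]
    intro x hx hx'
    simp only [Finset.mem_filter, Finset.mem_univ, true_and, Finset.mem_union] at hx hx'
    rcases hx' with hx' | hx'
    · exact hx'.2.1 hx.2
    · exact hx'.2.1 hx.2

theorem fiberSum_invariant {X Y : FinGSet G2} {B : Type} [AddCommMonoid B] (f : GMap X Y)
    (φ : X → B) (hφ : ∀ x, φ ((-1 : G2) • x) = φ x) (y : Y) :
    fiberSum f φ ((-1 : G2) • y) = fiberSum f φ y := by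
  classical
  let _ : Fintype X := Fintype.ofFinite X
  rw [fiberSum_def f φ y (Finset.univ.filter fun x : X => f x = y) (by simp)]
  rw [fiberSum_def f φ ((-1 : G2) • y)
    (Finset.univ.filter fun x : X => f x = (-1 : G2) • y) (by simp)]
  apply Finset.sum_bij (fun x _ => (-1 : G2) • x)
  · intro x hx
    simp only [Finset.mem_filter, Finset.mem_univ, true_and] at hx ⊢
    rw [map_neg_smul, hx, neg_neg_smul]
  · intro x _ x' _ h
    exact smul_left_cancel _ h
  · intro x hx
    simp only [Finset.mem_filter, Finset.mem_univ, true_and] at hx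
    refine ⟨(-1 : G2) • x, ?_, neg_neg_smul x⟩
    simp only [Finset.mem_filter, Finset.mem_univ, true_and]
    rw [map_neg_smul, hx]
  · intro x _; exact (hφ x).symm

/-- Constant Green functor `ℤ[X]`: invariant functions. -/
noncomputable def RF : FunFam G2 ℤ[X] where
  F := fun X =>
    { carrier := {φ | ∀ x, φ ((-1 : G2) • x) = φ x}
      mul_mem' := fun {a b} ha hb x => by simp [ha x, hb x]
      one_mem' := fun x => rfl
      add_mem' := fun {a b} ha hb x => by simp [ha x, hb x]
      zero_mem' := fun x => rfl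
      neg_mem' := fun {a} ha x => by simp [ha x] }
  pull := by
    intro X Y f φ hφ x
    change φ (f ((-1 : G2) • x)) = φ (f x)
    rw [map_neg_smul]; exact hφ _
  push := by
    intro X Y f φ hφ y
    exact fiberSum_invariant f φ hφ y
  glue := by
    intro X Y Z i j hij φ h1 h2 z
    obtain ⟨t, rfl⟩ := hij.2 z
    rcases t with x | y
    · have := h1 x
      simpa [map_neg_smul] using this
    · have := h2 y
      simpa [map_neg_smul] using this

/-- the subring `ℤ[X] + 2 ℤ[X,X⁻¹]`. -/
noncomputable def C : Subring ℤ[T;T⁻¹] where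
  carrier := {a | ∃ (p : ℤ[X]) (q : ℤ[T;T⁻¹]), a = toLaurent p + (q + q)}
  mul_mem' := by
    rintro a b ⟨p, q, rfl⟩ ⟨p', q', rfl⟩
    exact ⟨p * p', toLaurent p * q' + q * toLaurent p' + (q * q' + q * q'), by
      rw [map_mul]; ring⟩
  one_mem' := ⟨1, 0, by simp⟩
  add_mem' := by
    rintro a b ⟨p, q, rfl⟩ ⟨p', q', rfl⟩
    exact ⟨p + p', q + q', by rw [map_add]; ring⟩
  zero_mem' := ⟨0, 0, by simp⟩
  neg_mem' := by
    rintro a ⟨p, q, rfl⟩
    exact ⟨-p, -q, by rw [map_neg]; ring⟩

noncomputable def SF : FunFam G2 ℤ[T;T⁻¹] where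
  F := fun X =>
    { carrier := {φ | (∀ x, φ ((-1 : G2) • x) = φ x) ∧ ∀ x, (-1 : G2) • x = x → φ x ∈ C}
      mul_mem' := fun {a b} ha hb =>
        ⟨fun x => by simp [ha.1 x, hb.1 x], fun x hx => C.mul_mem (ha.2 x hx) (hb.2 x hx)⟩
      one_mem' := ⟨fun x => rfl, fun x _ => C.one_mem⟩
      add_mem' := fun {a b} ha hb =>
        ⟨fun x => by simp [ha.1 x, hb.1 x], fun x hx => C.add_mem (ha.2 x hx) (hb.2 x hx)⟩
      zero_mem' := ⟨fun x => rfl, fun x _ => C.zero_mem⟩
      neg_mem' := fun {a} ha =>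
        ⟨fun x => by simp [ha.1 x], fun x hx => C.neg_mem (ha.2 x hx)⟩ }
  pull := by
    intro X Y f φ hφ
    refine ⟨fun x => ?_, fun x hx => ?_⟩
    · change φ (f ((-1 : G2) • x)) = φ (f x)
      rw [map_neg_smul]; exact hφ.1 _
    · exact hφ.2 (f x) (by rw [← map_neg_smul, hx])
  push := by
    intro X Y f φ hφ
    refine ⟨fun y => fiberSum_invariant f φ hφ.1 y, fun y hy => ?_⟩
    obtain ⟨b, hb⟩ := fiberSum_split f φ hφ.1 y hy
    rw [hb]
    refine C.add_mem ?_ ⟨0, b, by simp⟩
    unfold fiberSum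
    exact C.sum_mem (fun x _ => hφ.2 x.1 x.2)
  glue := by
    intro X Y Z i j hij φ h1 h2
    refine ⟨fun z => ?_, fun z hz => ?_⟩
    · obtain ⟨t, rfl⟩ := hij.2 z
      rcases t with x | y
      · have := h1.1 x
        simpa [map_neg_smul] using this
      · have := h2.1 y
        simpa [map_neg_smul] using this
    · obtain ⟨t, rfl⟩ := hij.2 z
      rcases t with x | y
      · apply h1.2 x
        have : Function.Injective i := fun a b h => Sum.inl_injective (hij.1 (show Sum.elim i j (Sum.inl a) = Sum.elim i j (Sum.inl b) from h))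
        apply this
        rw [map_neg_smul]; exact hz
      · apply h2.2 y
        have : Function.Injective j := fun a b h => Sum.inr_injective (hij.1 (show Sum.elim i j (Sum.inr a) = Sum.elim i j (Sum.inr b) from h))
        apply this
        rw [map_neg_smul]; exact hz

/-- The Green functor `R`. -/
noncomputable def R : GreenFunctor G2 := RF.green
/-- The Green functor `S`. -/
noncomputable def S : GreenFunctor G2 := SF.green

noncomputable def R.val {X : FinGSet G2} (r : R.obj X) : X → ℤ[X] := (r : RF.F X).1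
noncomputable def S.val {X : FinGSet G2} (r : S.obj X) : X → ℤ[T;T⁻¹] := (r : SF.F X).1
noncomputable def R.mk {X : FinGSet G2} (r : X → ℤ[X]) (h : ∀ x, r ((-1 : G2) • x) = r x) :
  R.obj X := (⟨r, h⟩ : RF.F X)
noncomputable def S.mk {X : FinGSet G2} (r : X → ℤ[T;T⁻¹]) (h : ∀ x, r ((-1 : G2) • x) = r x)
  (h' : ∀ x, (-1 : G2) • x = x → r x ∈ C) : S.obj X := (⟨r, h, h'⟩ : SF.F X)

theorem R.ext {X : FinGSet G2} {r s : R.obj X} (h : ∀ x, R.val r x = R.val s x) : r = s :=
  Subtype.ext (funext h)
theorem S.ext {X : FinGSet G2} {r s : S.obj X} (h : ∀ x, S.val r x = S.val s x) : r = s :=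
  Subtype.ext (funext h)
theorem R.inv {X : FinGSet G2} (r : R.obj X) (x : X) : R.val r ((-1 : G2) • x) = R.val r x :=
  (r : RF.F X).2 x
theorem S.inv {X : FinGSet G2} (r : S.obj X) (x : X) : S.val r ((-1 : G2) • x) = S.val r x :=
  (r : SF.F X).2.1 x
theorem S.fix {X : FinGSet G2} (r : S.obj X) (x : X) (hx : (-1 : G2) • x = x) : S.val r x ∈ C :=
  (r : SF.F X).2.2 x hx

@[simp] theorem R.val_mk {X : FinGSet G2} (r : X → ℤ[X]) (h) : R.val (R.mk r h) = r := rfl
@[simp] theorem S.val_mk {X : FinGSet G2} (r : X → ℤ[T;T⁻¹]) (h) (h') :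
  S.val (S.mk r h h') = r := rfl
@[simp] theorem R.val_add {X : FinGSet G2} (r s : R.obj X) (x : X) :
  R.val (r + s) x = R.val r x + R.val s x := rfl
@[simp] theorem R.val_mul {X : FinGSet G2} (r s : R.obj X) (x : X) :
  R.val (r * s) x = R.val r x * R.val s x := rfl
@[simp] theorem R.val_neg {X : FinGSet G2} (r : R.obj X) (x : X) :
  R.val (-r) x = - R.val r x := rfl
@[simp] theorem R.val_sub {X : FinGSet G2} (r s : R.obj X) (x : X) :
  R.val (r - s) x = R.val r x - R.val s x := rfl
@[simp] theorem R.val_one {X : FinGSet G2} (x : X) : R.val (1 : R.obj X) x = 1 := rfl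
@[simp] theorem R.val_zero {X : FinGSet G2} (x : X) : R.val (0 : R.obj X) x = 0 := rfl
@[simp] theorem S.val_add {X : FinGSet G2} (r s : S.obj X) (x : X) :
  S.val (r + s) x = S.val r x + S.val s x := rfl
@[simp] theorem S.val_mul {X : FinGSet G2} (r s : S.obj X) (x : X) :
  S.val (r * s) x = S.val r x * S.val s x := rfl
@[simp] theorem S.val_neg {X : FinGSet G2} (r : S.obj X) (x : X) :
  S.val (-r) x = - S.val r x := rfl
@[simp] theorem S.val_one {X : FinGSet G2} (x : X) : S.val (1 : S.obj X) x = 1 := rfl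
@[simp] theorem S.val_zero {X : FinGSet G2} (x : X) : S.val (0 : S.obj X) x = 0 := rfl
@[simp] theorem R.val_res {X Y : FinGSet G2} (f : GMap X Y) (r : R.obj Y) (x : X) :
  R.val (R.resH f r) x = R.val r (f x) := rfl
@[simp] theorem S.val_res {X Y : FinGSet G2} (f : GMap X Y) (r : S.obj Y) (x : X) :
  S.val (S.resH f r) x = S.val r (f x) := rfl
theorem R.val_tr {X Y : FinGSet G2} (f : GMap X Y) (r : R.obj X) :
  R.val (R.trH f r) = fiberSum f (R.val r) := rfl
theorem S.val_tr {X Y : FinGSet G2} (f : GMap X Y) (r : S.obj X) :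
  S.val (S.trH f r) = fiberSum f (S.val r) := rfl
theorem R.val_pow {X : FinGSet G2} (r : R.obj X) (k : ℕ) (x : X) :
    R.val (r ^ k) x = R.val r x ^ k := by
  induction k with
  | zero => simp
  | succ n ih => rw [pow_succ, R.val_mul, ih, pow_succ]
theorem S.val_pow {X : FinGSet G2} (r : S.obj X) (k : ℕ) (x : X) :
    S.val (r ^ k) x = S.val r x ^ k := by
  induction k with
  | zero => simp
  | succ n ih => rw [pow_succ, S.val_mul, ih, pow_succ]

theorem map_fiberSum {X Y B B' : Type} [Finite X] [AddCommMonoid B] [AddCommMonoid B']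
    (h : B →+ B') (f : X → Y) (φ : X → B) (y : Y) :
    h (fiberSum f φ y) = fiberSum f (fun x => h (φ x)) y := by
  unfold fiberSum
  rw [map_sum]

/-- The structure map `R → S`. -/
noncomputable def ι : GreenFunctor.Hom R S :=
  GreenFunctor.Hom.mk'
    (fun X =>
      { toFun := fun r => S.mk (fun x => toLaurent (R.val r x)) (fun x => by rw [R.inv])
          (fun x _ => ⟨R.val r x, 0, by simp⟩)
        map_zero' := S.ext (fun x => by simp)
        map_one' := S.ext (fun x => by simp)
        map_add' := fun _ _ => S.ext (fun x => map_add toLaurent _ _)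
        map_mul' := fun _ _ => S.ext (fun x => map_mul toLaurent _ _) })
    (fun f r => rfl)
    (fun f r => S.ext (fun y => by
      change toLaurent (fiberSum f (R.val r) y) = fiberSum f (fun x => toLaurent (R.val r x)) y
      exact map_fiberSum (toLaurent : ℤ[X] →+* ℤ[T;T⁻¹]).toAddMonoidHom f (R.val r) y))

@[simp] theorem ι_val {X : FinGSet G2} (r : R.obj X) (x : X) :
    S.val (ι.hom X r) x = toLaurent (R.val r x) := rfl

end Pool.Agent.Helper59_Green
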