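import Pool.Agent.Helper59_Green.Ex1

set_option autoImplicit false

open scoped Polynomial LaurentPolynomial
open Polynomial (toLaurent)

namespace Pool.Agent.Helper59_Green

/-- `X × G`, a free `G`-set over `X`. -/
def fr (X : FinGSet G2) : FinGSet G2 where
  carrier := X × G2

def mkfr {X : FinGSet G2} (x : X) (g : G2) : fr X := (x, g)

def π (X : FinGSet G2) : GMap (fr X) X := ⟨fun p => p.1, fun _ _ => rfl⟩

def frMap {X Y : FinGSet G2} (f : GMap X Y) : GMap (fr X) (fr Y) :=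
  ⟨fun p => (f p.1, p.2), fun g p => Prod.ext (f.equivariant g p.1) rfl⟩

def τ (X : FinGSet G2) : GMap (fr X) (fr X) :=
  ⟨fun p => (p.1, - p.2), fun g p => Prod.ext rfl (by
    change -(g * p.2) = g * (-p.2)
    rw [mul_neg])⟩

def IsFree (Y : FinGSet G2) : Prop := Nonempty (GMap Y (FinGSet.orbit (⊥ : Subgroup G2)))

def toOrb (X : FinGSet G2) : GMap (fr X) (FinGSet.orbit (⊥ : Subgroup G2)) :=
  ⟨fun p => (QuotientGroup.mk p.2 : G2 ⧸ (⊥ : Subgroup G2)), fun _ _ => rfl⟩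

theorem isFree_fr (X : FinGSet G2) : IsFree (fr X) := ⟨toOrb X⟩

theorem isFree_of_map {X Y : FinGSet G2} (f : GMap X Y) (h : IsFree Y) : IsFree X :=
  ⟨h.some.comp f⟩

theorem orbit_ne (y : FinGSet.orbit (⊥ : Subgroup G2)) : (-1 : G2) • y ≠ y := by
  obtain ⟨g, rfl⟩ := QuotientGroup.mk_surjective (s := (⊥ : Subgroup G2)) y
  intro h
  have h' : (QuotientGroup.mk ((-1 : G2) * g) : G2 ⧸ (⊥ : Subgroup G2)) = QuotientGroup.mk g := h
  rw [QuotientGroup.eq, Subgroup.mem_bot] at h'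
  rcases Int.units_eq_one_or g with rfl | rfl <;> revert h' <;> decide

theorem IsFree.ne {Y : FinGSet G2} (h : IsFree Y) (y : Y) : (-1 : G2) • y ≠ y := by
  obtain ⟨t⟩ := h
  intro h'
  apply orbit_ne (t y)
  rw [← map_neg_smul, h']

/-- the constant function `X` -/
noncomputable def xc (X : FinGSet G2) : R.obj X := R.mk (fun _ => Polynomial.X) (fun _ => rfl)

@[simp] theorem xc_val (X : FinGSet G2) (x : X) : R.val (xc X) x = Polynomial.X := rfl

theorem res_xc {X Y : FinGSet G2} (f : GMap X Y) : R.resH f (xc Y) = xc X := rfl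

theorem ι_injective {X : FinGSet G2} : Function.Injective (ι.hom X) := by
  intro r s h
  apply R.ext
  intro x
  have : S.val (ι.hom X r) x = S.val (ι.hom X s) x := by rw [h]
  rw [ι_val, ι_val] at this
  exact Polynomial.toLaurent_injective this

theorem exists_denom {Y : FinGSet G2} (s : S.obj Y) :
    ∃ (k : ℕ) (r : R.obj Y), ι.hom Y r = ι.hom Y (xc Y) ^ k * s := by
  classical
  have h : ∀ y : Y, ∃ (n : ℕ) (f' : ℤ[X]), toLaurent f' = S.val s y * LaurentPolynomial.T n :=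
    fun y => LaurentPolynomial.exists_T_pow _
  choose n f' hf' using h
  let _ : Fintype Y := Fintype.ofFinite Y
  let K := Finset.univ.sup n
  have hK : ∀ y, n y ≤ K := fun y => Finset.le_sup (Finset.mem_univ y)
  have hr : ∀ y, toLaurent (Polynomial.X ^ (K - n y) * f' y) =
      LaurentPolynomial.T K * S.val s y := by
    intro y
    rw [map_mul, hf', map_pow, Polynomial.toLaurent_X, LaurentPolynomial.T_pow]
    rw [mul_comm (S.val s y), ← mul_assoc, ← LaurentPolynomial.T_add]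
    congr 2
    have := hK y
    push_cast [Nat.cast_sub this]
    ring
  refine ⟨K, R.mk (fun y => Polynomial.X ^ (K - n y) * f' y) (fun y => ?_), ?_⟩
  · apply Polynomial.toLaurent_injective
    rw [hr, hr, S.inv]
  · apply S.ext
    intro y
    rw [ι_val, R.val_mk, hr, S.val_mul, S.val_pow, ι_val, xc_val, Polynomial.toLaurent_X,
      LaurentPolynomial.T_pow]
    simp

section

variable {S' : GreenFunctor G2} (φ' : GreenFunctor.Hom R S')
  (hb : IsUnit (φ'.hom (FinGSet.orbit (⊥ : Subgroup G2)) (xc _)))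

include hb

theorem isUnit_xc {Y : FinGSet G2} (hY : IsFree Y) : IsUnit (φ'.hom Y (xc Y)) := by
  obtain ⟨t⟩ := hY
  rw [← res_xc t, φ'.hom_res]
  exact hb.map _

omit hb in
theorem loc_wd {Y : FinGSet G2} (hu : IsUnit (φ'.hom Y (xc Y))) {s : S.obj Y} {s' t' : S'.obj Y}
    {k l : ℕ} {r q : R.obj Y}
    (h1 : ι.hom Y r = ι.hom Y (xc Y) ^ k * s) (h1' : φ'.hom Y r = φ'.hom Y (xc Y) ^ k * s')
    (h2 : ι.hom Y q = ι.hom Y (xc Y) ^ l * s) (h2' : φ'.hom Y q = φ'.hom Y (xc Y) ^ l * t') :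
    s' = t' := by
  have h3 : xc Y ^ l * r = xc Y ^ k * q := by
    apply ι_injective
    rw [map_mul, map_mul, map_pow, map_pow, h1, h2]; ring
  have h4 := congrArg (φ'.hom Y) h3
  rw [map_mul, map_mul, map_pow, map_pow, h1', h2', ← mul_assoc, ← mul_assoc, ← pow_add,
    ← pow_add, add_comm l k] at h4
  exact (hu.pow (k + l)).mul_left_cancel h4

theorem exists_ht {Y : FinGSet G2} (hY : IsFree Y) (s : S.obj Y) :
    ∃ s' : S'.obj Y, ∃ (k : ℕ) (r : R.obj Y), ι.hom Y r = ι.hom Y (xc Y) ^ k * s ∧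
      φ'.hom Y r = φ'.hom Y (xc Y) ^ k * s' := by
  obtain ⟨k, r, h⟩ := exists_denom s
  obtain ⟨u, hu⟩ := (isUnit_xc φ' hb hY).pow k
  refine ⟨↑u⁻¹ * φ'.hom Y r, k, r, h, ?_⟩
  rw [← hu, ← mul_assoc, Units.mul_inv, one_mul]

/-- the extension of `φ'` to `S(Y)` for free `Y` -/
noncomputable def ht {Y : FinGSet G2} (hY : IsFree Y) (s : S.obj Y) : S'.obj Y :=
  Classical.choose (exists_ht φ' hb hY s)

theorem ht_unique {Y : FinGSet G2} (hY : IsFree Y) (s : S.obj Y) (s' : S'.obj Y) (k : ℕ)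
    (r : R.obj Y) (h : ι.hom Y r = ι.hom Y (xc Y) ^ k * s)
    (h' : φ'.hom Y r = φ'.hom Y (xc Y) ^ k * s') : ht φ' hb hY s = s' := by
  obtain ⟨l, q, h2, h2'⟩ := Classical.choose_spec (exists_ht φ' hb hY s)
  exact loc_wd φ' (isUnit_xc φ' hb hY) h2 h2' h h'

theorem ht_spec {Y : FinGSet G2} (hY : IsFree Y) (s : S.obj Y) :
    ∃ (k : ℕ) (r : R.obj Y), ι.hom Y r = ι.hom Y (xc Y) ^ k * s ∧
      φ'.hom Y r = φ'.hom Y (xc Y) ^ k * ht φ' hb hY s :=
  Classical.choose_spec (exists_ht φ' hb hY s)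

theorem ht_ι {Y : FinGSet G2} (hY : IsFree Y) (r : R.obj Y) :
    ht φ' hb hY (ι.hom Y r) = φ'.hom Y r :=
  ht_unique φ' hb hY _ _ 0 r (by simp) (by simp)

theorem ht_add {Y : FinGSet G2} (hY : IsFree Y) (s t : S.obj Y) :
    ht φ' hb hY (s + t) = ht φ' hb hY s + ht φ' hb hY t := by
  obtain ⟨k, r, h, h'⟩ := ht_spec φ' hb hY s
  obtain ⟨l, q, h2, h2'⟩ := ht_spec φ' hb hY t
  apply ht_unique φ' hb hY _ _ (k + l) (xc Y ^ l * r + xc Y ^ k * q)
  · rw [map_add, map_mul, map_mul, map_pow, map_pow, h, h2]; ring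
  · rw [map_add, map_mul, map_mul, map_pow, map_pow, h', h2']; ring

theorem ht_mul {Y : FinGSet G2} (hY : IsFree Y) (s t : S.obj Y) :
    ht φ' hb hY (s * t) = ht φ' hb hY s * ht φ' hb hY t := by
  obtain ⟨k, r, h, h'⟩ := ht_spec φ' hb hY s
  obtain ⟨l, q, h2, h2'⟩ := ht_spec φ' hb hY t
  apply ht_unique φ' hb hY _ _ (k + l) (r * q)
  · rw [map_mul, h, h2]; ring
  · rw [map_mul, h', h2']; ring

theorem ht_zero {Y : FinGSet G2} (hY : IsFree Y) : ht φ' hb hY 0 = 0 := by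
  have := ht_ι φ' hb hY 0
  rwa [map_zero, map_zero] at this

theorem ht_sub {Y : FinGSet G2} (hY : IsFree Y) (s t : S.obj Y) :
    ht φ' hb hY (s - t) = ht φ' hb hY s - ht φ' hb hY t := by
  rw [eq_sub_iff_add_eq, ← ht_add, sub_add_cancel]

theorem ht_res {X Y : FinGSet G2} (f : GMap X Y) (hX : IsFree X) (hY : IsFree Y)
    (s : S.obj Y) : ht φ' hb hX (S.resH f s) = S'.resH f (ht φ' hb hY s) := by
  obtain ⟨k, r, h, h'⟩ := ht_spec φ' hb hY s
  apply ht_unique φ' hb hX _ _ k (R.resH f r)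
  · rw [ι.hom_res, h, map_mul, map_pow, ← ι.hom_res, res_xc]
  · rw [φ'.hom_res, h', map_mul, map_pow, ← φ'.hom_res, res_xc]

theorem ht_tr {X Y : FinGSet G2} (f : GMap X Y) (hX : IsFree X) (hY : IsFree Y)
    (s : S.obj X) : ht φ' hb hY (S.trH f s) = S'.trH f (ht φ' hb hX s) := by
  obtain ⟨k, r, h, h'⟩ := ht_spec φ' hb hX s
  apply ht_unique φ' hb hY _ _ k (R.trH f r)
  · rw [ι.hom_tr, h, ← res_xc f, ι.hom_res, ← map_pow, mul_comm, S.frobenius', mul_comm]
  · rw [φ'.hom_tr, h', ← res_xc f, φ'.hom_res, ← map_pow, mul_comm, S'.frobenius', mul_comm]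

end

theorem tr_π_val {A : Type} [AddCommMonoid A] {X : FinGSet G2} (q : fr X → A) (x : X) :
    fiberSum (π X) q x = q (mkfr x 1) + q (mkfr x (-1)) := by
  classical
  have hs : ∀ p : fr X, p ∈ ({mkfr x 1, mkfr x (-1)} : Finset (fr X)) ↔ π X p = x := by
    intro p
    rw [Finset.mem_insert, Finset.mem_singleton]
    constructor
    · rintro (h | h) <;> rw [h] <;> rfl
    · intro h
      rcases Int.units_eq_one_or p.2 with h' | h'
      · exact Or.inl (Prod.ext h h')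
      · exact Or.inr (Prod.ext h h')
  rw [fiberSum_def (π X) q x _ hs, Finset.sum_pair]
  intro h
  have : (1 : G2) = -1 := congrArg Prod.snd h
  revert this; decide

theorem fr_smul_val {X : FinGSet G2} (x : X) (g : G2) :
    (-1 : G2) • ((x, g) : fr X) = ((-1 : G2) • x, -g) := by
  change ((-1 : G2) • x, (-1 : G2) * g) = _
  rw [neg_one_mul]

/-- lift a function on `X` to an invariant function on `X × G` -/
def lf {A : Type} {X : FinGSet G2} (v : X → A) : fr X → A := fun p => v (p.2 • p.1)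

theorem lf_inv {A : Type} {X : FinGSet G2} (v : X → A) (p : fr X) :
    lf v ((-1 : G2) • p) = lf v p := by
  obtain ⟨x, g⟩ := p
  have : ((-1 : G2) • ((x, g) : fr X)) = ((-1 : G2) • x, -g) := fr_smul_val x g
  change lf v ((-1 : G2) • ((x, g) : fr X)) = lf v (x, g)
  rw [this]
  change v ((-g) • ((-1 : G2) • x)) = v (g • x)
  rw [smul_smul]; simp

/-- pullback square for `X × G → Y × G` over `X → Y` -/
theorem sq {X Y : FinGSet G2} (f : GMap X Y) :
    IsPullbackSquare (frMap f) (π X) (π Y) f := by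
  refine ⟨fun a => rfl, ?_⟩
  rintro ⟨y, g⟩ x h
  refine ⟨(x, g), ⟨Prod.ext h.symm rfl, rfl⟩, ?_⟩
  rintro ⟨x', g'⟩ ⟨h1, h2⟩
  have h3 : g' = g := congrArg Prod.snd h1
  have h4 : x' = x := h2
  rw [h3, h4]

theorem comm_sq {X Y : FinGSet G2} (f : GMap X Y) :
    f.comp (π X) = (π Y).comp (frMap f) := rfl

section

variable (Q : GreenFunctor G2)

theorem res_tr_π {X Y : FinGSet G2} (f : GMap X Y) (z : Q.obj (fr Y)) :
    Q.resH f (Q.trH (π Y) z) = Q.trH (π X) (Q.resH (frMap f) z) :=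
  Q.base_change' _ _ _ _ (sq f) z

theorem tr_tr_π {X Y : FinGSet G2} (f : GMap X Y) (z : Q.obj (fr X)) :
    Q.trH f (Q.trH (π X) z) = Q.trH (π Y) (Q.trH (frMap f) z) := by
  rw [← Q.tr_comp', comm_sq, Q.tr_comp']

theorem tr_res_τ {X : FinGSet G2} (z : Q.obj (fr X)) : Q.trH (τ X) (Q.resH (τ X) z) = z := by
  have h : IsPullbackSquare (τ X) (τ X) (GMap.id (fr X))
      (GMap.id (fr X)) := by
    refine ⟨fun a => rfl, ?_⟩
    rintro ⟨x, g⟩ ⟨y, g'⟩ h
    have h : ((x, g) : X × G2) = (y, g') := h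
    rw [Prod.mk.injEq] at h
    obtain ⟨rfl, rfl⟩ := h
    refine ⟨(x, -g), ⟨Prod.ext rfl (neg_neg g), Prod.ext rfl (neg_neg g)⟩, ?_⟩
    rintro ⟨x', g'⟩ ⟨h1, -⟩
    have h3 : -g' = g := congrArg Prod.snd h1
    have h4 : x' = x := congrArg Prod.fst h1
    rw [← h3, h4, neg_neg]
  have := Q.base_change' _ _ _ _ h z
  rw [Q.res_id', Q.tr_id'] at this
  exact this.symm

theorem tr_π_res_τ {X : FinGSet G2} (z : Q.obj (fr X)) :
    Q.trH (π X) (Q.resH (τ X) z) = Q.trH (π X) z := by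
  conv_rhs => rw [← tr_res_τ Q z]
  rw [← Q.tr_comp']
  rfl

end

/-- surjectivity of `R(X) ⊕ S(X × G) → S(X)` -/
theorem α_surj {X : FinGSet G2} (s : S.obj X) :
    ∃ (r : R.obj X) (z : S.obj (fr X)), s = ι.hom X r + S.trH (π X) z := by
  classical
  obtain ⟨Rep, hRep⟩ := exists_rep X
  have h : ∀ x : X, ∃ (p : ℤ[X]) (q : ℤ[T;T⁻¹]), (-1 : G2) • x = x →
      S.val s x = toLaurent p + (q + q) := by
    intro x
    by_cases hx : (-1 : G2) • x = x
    · obtain ⟨p, q, h⟩ := S.fix s x hx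
      exact ⟨p, q, fun _ => h⟩
    · exact ⟨0, 0, fun h => absurd h hx⟩
  choose p q hpq using h
  let r : X → ℤ[X] := fun x => if (-1 : G2) • x = x then p x else 0
  let v : X → ℤ[T;T⁻¹] := fun x => if (-1 : G2) • x = x then q x else if Rep x then S.val s x else 0
  have hr : ∀ x, r ((-1 : G2) • x) = r x := by
    intro x
    simp only [r]
    by_cases hx : (-1 : G2) • x = x
    · simp only [hx]
    · rw [if_neg hx, if_neg]
      rw [neg_neg_smul]; exact fun h => hx h.symm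
  refine ⟨R.mk r hr, S.mk (lf v) (lf_inv v) (fun y hy => absurd hy ((isFree_fr X).ne y)), ?_⟩
  apply S.ext
  intro x
  rw [S.val_add, ι_val, S.val_tr, S.val_mk, tr_π_val, R.val_mk]
  change S.val s x = toLaurent (r x) + (v ((1 : G2) • x) + v ((-1 : G2) • x))
  rw [one_smul]
  by_cases hx : (-1 : G2) • x = x
  · rw [hx]
    simp only [r, v, if_pos hx]
    exact hpq x hx
  · have hx' : (-1 : G2) • (-1 : G2) • x ≠ (-1 : G2) • x := by
      rw [neg_neg_smul]; exact fun h => hx h.symm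
    simp only [r, v, if_neg hx, if_neg hx', map_zero, zero_add]
    by_cases hrep : Rep x
    · have : ¬ Rep ((-1 : G2) • x) := by rw [hRep x hx]; exact fun h => h hrep
      rw [if_pos hrep, if_neg this, add_zero]
    · have : Rep ((-1 : G2) • x) := by rw [hRep x hx]; exact hrep
      rw [if_neg hrep, if_pos this, zero_add, S.inv]

end Pool.Agent.Helper59_Green
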