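import Pool.Agent.Helper59_Green.Ex2

set_option autoImplicit false

open scoped Polynomial LaurentPolynomial
open Polynomial (toLaurent)

namespace Pool.Agent.Helper59_Green

section

variable {S' : GreenFunctor G2} (φ' : GreenFunctor.Hom R S')
  (hb : IsUnit (φ'.hom (FinGSet.orbit (⊥ : Subgroup G2)) (xc _)))

theorem kernel_poly (a r : ℤ[X]) (k : ℕ) (h : Polynomial.X ^ k * r + (a + a) = 0) :
    ∃ c : ℤ[X], a = Polynomial.X ^ k * c ∧ c + c = - r := by
  have h2 : ∀ n, (2 : ℤ) ∣ r.coeff n := by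
    intro n
    have := congrArg (fun t => Polynomial.coeff t (n + k)) h
    simp only [Polynomial.coeff_add, Polynomial.coeff_zero] at this
    rw [mul_comm, Polynomial.coeff_mul_X_pow] at this
    exact ⟨-a.coeff (n + k), by linarith⟩
  obtain ⟨d, hd⟩ := (Polynomial.C_dvd_iff_dvd_coeff (2 : ℤ) r).2 h2
  refine ⟨-d, ?_, ?_⟩
  · have h3 : (2 : ℤ[X]) * a = 2 * (Polynomial.X ^ k * (-d)) := by
      have h4 : (Polynomial.C (2 : ℤ) : ℤ[X]) = 2 := by simp
      rw [hd, h4] at h
      linear_combination h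
    exact mul_left_cancel₀ (by norm_num) h3
  · have h4 : (Polynomial.C (2 : ℤ) : ℤ[X]) = 2 := by simp
    rw [hd, h4]; ring

theorem β_ker {X : FinGSet G2} (r : R.obj X) (z : S.obj (fr X))
    (h : ι.hom X r + S.trH (π X) z = 0) :
    φ'.hom X r + S'.trH (π X) (ht φ' hb (isFree_fr X) z) = 0 := by
  classical
  obtain ⟨Rep, hRep⟩ := exists_rep X
  obtain ⟨k, q, hq, hq'⟩ := ht_spec φ' hb (isFree_fr X) z
  have e1 : ι.hom _ q = z * S.resH (π X) (ι.hom X (xc X) ^ k) := by
    rw [hq, map_pow (S.resH (π X)), ← ι.hom_res, res_xc, mul_comm]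
  have h1 : xc X ^ k * r + R.trH (π X) q = 0 := by
    apply ι_injective
    rw [map_add, map_mul, map_pow, ι.hom_tr, e1, S.frobenius', map_zero]
    linear_combination (ι.hom X (xc X)) ^ k * h
  -- the function `v`
  let v : X → ℤ[X] := fun x => R.val q (mkfr x 1)
  have hv : ∀ x, R.val q (mkfr x (-1)) = v ((-1 : G2) • x) := by
    intro x
    have := R.inv q (mkfr ((-1 : G2) • x) 1)
    change R.val q (mkfr x (-1)) = R.val q (mkfr ((-1 : G2) • x) 1)
    rw [← this]
    congr 1
    exact Prod.ext (neg_neg_smul x).symm (show (-1 : G2) = (-1) * 1 by decide)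
  have hqv : R.val q = lf v := by
    funext p
    obtain ⟨x, g⟩ := p
    rcases Int.units_eq_one_or g with rfl | rfl
    · change R.val q (mkfr x 1) = v ((1 : G2) • x)
      rw [one_smul]
    · exact hv x
  have h2 : ∀ x, Polynomial.X ^ k * R.val r x + (v x + v ((-1 : G2) • x)) = 0 := by
    intro x
    have : R.val (xc X ^ k * r + R.trH (π X) q) x = R.val (0 : R.obj X) x := by rw [h1]
    rw [R.val_add, R.val_mul, R.val_pow, xc_val, R.val_tr, tr_π_val, R.val_zero, hv] at this
    exact this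
  -- the functions `q₁`, `y`
  have h3 : ∀ x : X, ∃ c : ℤ[X], (-1 : G2) • x = x →
      v x = Polynomial.X ^ k * c ∧ c + c = - R.val r x := by
    intro x
    by_cases hx : (-1 : G2) • x = x
    · have := h2 x
      rw [hx] at this
      obtain ⟨c, hc⟩ := kernel_poly (v x) (R.val r x) k this
      exact ⟨c, fun _ => hc⟩
    · exact ⟨0, fun h => absurd h hx⟩
  choose c hc using h3
  let q₁ : X → ℤ[X] := fun x =>
    if (-1 : G2) • x = x then c x else if Rep x then 0 else - R.val r x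
  let y : X → ℤ[X] := fun x =>
    if (-1 : G2) • x = x then 0 else if Rep x then v x else 0
  have h4 : ∀ x, v x = Polynomial.X ^ k * q₁ x + (y x - y ((-1 : G2) • x)) ∧
      q₁ x + q₁ ((-1 : G2) • x) = - R.val r x := by
    intro x
    by_cases hx : (-1 : G2) • x = x
    · obtain ⟨h5, h6⟩ := hc x hx
      constructor
      · rw [hx]; simp only [q₁, y, if_pos hx]; rw [h5]; ring
      · rw [hx]; simp only [q₁, if_pos hx]; exact h6
    · have hx' : (-1 : G2) • (-1 : G2) • x ≠ (-1 : G2) • x := by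
        rw [neg_neg_smul]; exact fun h => hx h.symm
      by_cases hrep : Rep x
      · have hrep' : ¬ Rep ((-1 : G2) • x) := by rw [hRep x hx]; exact fun h => h hrep
        simp only [q₁, y, if_neg hx, if_neg hx', if_pos hrep, if_neg hrep']
        constructor
        · ring
        · rw [R.inv]; ring
      · have hrep' : Rep ((-1 : G2) • x) := by rw [hRep x hx]; exact hrep
        simp only [q₁, y, if_neg hx, if_neg hx', if_pos hrep', if_neg hrep]
        constructor
        · linear_combination h2 x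
        · ring
  let Q₁ : R.obj (fr X) := R.mk (lf q₁) (lf_inv q₁)
  let Y : R.obj (fr X) := R.mk (lf y) (lf_inv y)
  have h5 : q = xc (fr X) ^ k * Q₁ + (Y - R.resH (τ X) Y) := by
    apply R.ext
    intro p
    rw [R.val_add, R.val_mul, R.val_sub, R.val_pow, R.val_res, xc_val, hqv]
    change v (p.2 • p.1) = Polynomial.X ^ k * q₁ (p.2 • p.1) + (y (p.2 • p.1) - y ((-p.2) • p.1))
    rw [(h4 (p.2 • p.1)).1, smul_smul, neg_one_mul]
  have h6 : R.trH (π X) Q₁ = - r := by
    apply R.ext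
    intro x
    rw [R.val_tr, tr_π_val, R.val_neg]
    change q₁ ((1 : G2) • x) + q₁ ((-1 : G2) • x) = _
    rw [one_smul]
    exact (h4 x).2
  obtain ⟨u, hu⟩ := (isUnit_xc φ' hb (isFree_fr X)).pow k
  have hu' : S'.resH (τ X) (u : S'.obj (fr X)) = u := by
    rw [hu, map_pow, ← φ'.hom_res, res_xc]
  let w : S'.obj (fr X) := ↑u⁻¹ * φ'.hom _ Y
  have hw : φ'.hom _ Y = u * w := by
    simp only [w]; rw [← mul_assoc, Units.mul_inv, one_mul]
  have h7 : ht φ' hb (isFree_fr X) z = φ'.hom _ Q₁ + (w - S'.resH (τ X) w) := by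
    have h8 : (u : S'.obj (fr X)) * ht φ' hb (isFree_fr X) z =
        u * (φ'.hom _ Q₁ + (w - S'.resH (τ X) w)) := by
      rw [hu, ← hq', h5, map_add, map_mul, map_sub, map_pow, φ'.hom_res, ← hu, hw, map_mul, hu']
      ring
    exact u.isUnit.mul_left_cancel h8
  rw [h7, map_add, map_sub, tr_π_res_τ, sub_self, add_zero, ← φ'.hom_tr, h6, map_neg,
    add_neg_cancel]

/-- The unique extension `S → S'`. -/
theorem exists_hh {X : FinGSet G2} (s : S.obj X) :
    ∃ s' : S'.obj X, ∀ (r : R.obj X) (z : S.obj (fr X)), s = ι.hom X r + S.trH (π X) z →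
      s' = φ'.hom X r + S'.trH (π X) (ht φ' hb (isFree_fr X) z) := by
  obtain ⟨r₀, z₀, h⟩ := α_surj s
  refine ⟨φ'.hom X r₀ + S'.trH (π X) (ht φ' hb (isFree_fr X) z₀), fun r z h' => ?_⟩
  have h1 : ι.hom X (r₀ - r) + S.trH (π X) (z₀ - z) = 0 := by
    rw [map_sub, map_sub]
    have := h.symm.trans h'
    linear_combination this
  have h2 := β_ker φ' hb _ _ h1
  rw [ht_sub, map_sub, map_sub] at h2
  linear_combination h2

noncomputable def hh {X : FinGSet G2} (s : S.obj X) : S'.obj X :=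
  Classical.choose (exists_hh φ' hb s)

theorem hh_eq {X : FinGSet G2} (r : R.obj X) (z : S.obj (fr X)) :
    hh φ' hb (ι.hom X r + S.trH (π X) z) =
      φ'.hom X r + S'.trH (π X) (ht φ' hb (isFree_fr X) z) :=
  Classical.choose_spec (exists_hh φ' hb (ι.hom X r + S.trH (π X) z)) r z rfl

theorem hh_ι {X : FinGSet G2} (r : R.obj X) : hh φ' hb (ι.hom X r) = φ'.hom X r := by
  have := hh_eq φ' hb r 0
  rwa [map_zero, add_zero, ht_zero, map_zero, add_zero] at this

theorem hh_add {X : FinGSet G2} (s t : S.obj X) :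
    hh φ' hb (s + t) = hh φ' hb s + hh φ' hb t := by
  obtain ⟨r, z, rfl⟩ := α_surj s
  obtain ⟨r', z', rfl⟩ := α_surj t
  have : ι.hom X r + S.trH (π X) z + (ι.hom X r' + S.trH (π X) z') =
      ι.hom X (r + r') + S.trH (π X) (z + z') := by
    rw [map_add, map_add]; ring
  rw [this, hh_eq, hh_eq, hh_eq, ht_add, map_add, map_add]
  ring

theorem res_tr_ht {X : FinGSet G2} (z : S.obj (fr X)) :
    ht φ' hb (isFree_fr X) (S.resH (π X) (S.trH (π X) z)) =
      S'.resH (π X) (S'.trH (π X) (ht φ' hb (isFree_fr X) z)) := by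
  rw [res_tr_π S (π X), res_tr_π S' (π X), ht_tr φ' hb _ (isFree_fr _) (isFree_fr _),
    ht_res φ' hb _ (isFree_fr _) (isFree_fr _)]

theorem hh_mul {X : FinGSet G2} (s t : S.obj X) :
    hh φ' hb (s * t) = hh φ' hb s * hh φ' hb t := by
  obtain ⟨r, z, rfl⟩ := α_surj s
  obtain ⟨r', z', rfl⟩ := α_surj t
  have h1 : (ι.hom X r + S.trH (π X) z) * (ι.hom X r' + S.trH (π X) z') =
      ι.hom X (r * r') + S.trH (π X) (z' * ι.hom _ (R.resH (π X) r) +
        z * ι.hom _ (R.resH (π X) r') + z * S.resH (π X) (S.trH (π X) z')) := by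
    rw [map_add, map_add, ι.hom_res, ι.hom_res, S.frobenius', S.frobenius', S.frobenius', map_mul]
    ring
  have h2 : (φ'.hom X r + S'.trH (π X) (ht φ' hb (isFree_fr X) z)) *
      (φ'.hom X r' + S'.trH (π X) (ht φ' hb (isFree_fr X) z')) =
      φ'.hom X (r * r') + S'.trH (π X) (ht φ' hb (isFree_fr X) z' * φ'.hom _ (R.resH (π X) r) +
        ht φ' hb (isFree_fr X) z * φ'.hom _ (R.resH (π X) r') +
        ht φ' hb (isFree_fr X) z *
          S'.resH (π X) (S'.trH (π X) (ht φ' hb (isFree_fr X) z'))) := by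
    rw [map_add, map_add, φ'.hom_res, φ'.hom_res, S'.frobenius', S'.frobenius', S'.frobenius',
      map_mul]
    ring
  rw [h1, hh_eq, hh_eq, hh_eq, h2, ht_add, ht_add, ht_mul, ht_mul, ht_mul, ht_ι, ht_ι, res_tr_ht]

theorem hh_res {X Y : FinGSet G2} (f : GMap X Y) (s : S.obj Y) :
    hh φ' hb (S.resH f s) = S'.resH f (hh φ' hb s) := by
  obtain ⟨r, z, rfl⟩ := α_surj s
  rw [map_add, ← ι.hom_res, res_tr_π S f, hh_eq, hh_eq, map_add, ← φ'.hom_res, res_tr_π S' f,
    ht_res φ' hb _ (isFree_fr _) (isFree_fr _)]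

theorem hh_tr {X Y : FinGSet G2} (f : GMap X Y) (s : S.obj X) :
    hh φ' hb (S.trH f s) = S'.trH f (hh φ' hb s) := by
  obtain ⟨r, z, rfl⟩ := α_surj s
  rw [map_add, ← ι.hom_tr, tr_tr_π S f, hh_eq, hh_eq, map_add, ← φ'.hom_tr, tr_tr_π S' f,
    ht_tr φ' hb _ (isFree_fr _) (isFree_fr _)]

noncomputable def hHom : GreenFunctor.Hom S S' :=
  GreenFunctor.Hom.mk'
    (fun X =>
      { toFun := hh φ' hb
        map_zero' := by
          have := hh_ι φ' hb (X := X) 0
          rwa [map_zero, map_zero] at this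
        map_one' := by
          have := hh_ι φ' hb (X := X) 1
          rwa [map_one, map_one] at this
        map_add' := hh_add φ' hb
        map_mul' := hh_mul φ' hb })
    (fun f s => hh_res φ' hb f s)
    (fun f s => hh_tr φ' hb f s)

end

theorem GreenFunctor.Hom.ext' {G : Type} [Group G] {R S : GreenFunctor G}
    {h h' : GreenFunctor.Hom R S} (H : ∀ X r, h.hom X r = h'.hom X r) : h = h' := by
  obtain ⟨a, b, c, d, e, f⟩ := h
  obtain ⟨a', b', c', d', e', f'⟩ := h'
  have : a = a' := by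
    funext X r
    exact H X r
  subst this
  rfl

theorem isUnit_ι : IsUnit (ι.hom (FinGSet.orbit (⊥ : Subgroup G2)) (xc _)) := by
  refine IsUnit.of_mul_eq_one (S.mk (fun _ => LaurentPolynomial.T (-1)) (fun _ => rfl)
    (fun x hx => absurd hx (orbit_ne x))) ?_
  apply S.ext
  intro x
  rw [S.val_mul, ι_val, xc_val, S.val_mk, Polynomial.toLaurent_X, ← LaurentPolynomial.T_add,
    S.val_one]
  simp

/-- `S` is the localization of `R` at the element `X` of `R(G/e)`. -/
theorem isLocalizationAt : IsLocalizationAt (H := (⊥ : Subgroup G2)) ι (xc _) := by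
  refine ⟨isUnit_ι, fun S' φ' hb₀ => ?_⟩
  have hb : IsUnit (φ'.hom (FinGSet.orbit (⊥ : Subgroup G2)) (xc _)) := hb₀
  refine ⟨hHom φ' hb, fun X r => hh_ι φ' hb r, ?_⟩
  intro h' hh'
  have hh' : ∀ X r, h'.hom X (ι.hom X r) = φ'.hom X r := hh'
  apply GreenFunctor.Hom.ext'
  intro X s
  obtain ⟨r, z, rfl⟩ := α_surj s
  change _ = hh φ' hb _
  rw [hh_eq, map_add, hh', h'.hom_tr]
  congr 2
  obtain ⟨k, q, hq, hq'⟩ := ht_spec φ' hb (isFree_fr X) z
  symm
  apply ht_unique φ' hb _ _ _ k q hq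
  rw [← hh', hq, map_mul, map_pow, hh']

end Pool.Agent.Helper59_Green
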