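import Pool.Agent.Helper59_Green.Ex3

set_option autoImplicit false

open scoped Polynomial LaurentPolynomial
open Polynomial (toLaurent)

namespace Pool.Agent.Helper59_Green

/-- reduction `ℤ[X] → 𝔽₂`, `X ↦ 0` -/
noncomputable def ε : ℤ[X] →+* ZMod 2 :=
  (Int.castRingHom (ZMod 2)).comp (Polynomial.constantCoeff)

/-- constant coefficient modulo two -/
noncomputable def ρ : ℤ[T;T⁻¹] →+ ZMod 2 where
  toFun := fun a => ((a.coeff 0 : ℤ) : ZMod 2)
  map_zero' := by simp
  map_add' := fun a b => by simp

theorem ρ_double (q : ℤ[T;T⁻¹]) : ρ (q + q) = 0 := by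
  rw [map_add]; exact CharTwo.add_self_eq_zero _

theorem toLaurent_coeff_zero (p : ℤ[X]) : (toLaurent p).coeff 0 = p.coeff 0 := by
  induction p using Polynomial.induction_on' with
  | add p q hp hq =>
    rw [map_add, AddMonoidAlgebra.coeff_add, Finsupp.add_apply, hp, hq, Polynomial.coeff_add]
  | monomial n a =>
    rw [Polynomial.toLaurent_C_mul_T, Polynomial.coeff_monomial, ← LaurentPolynomial.single_eq_C_mul_T]
    simp only [AddMonoidAlgebra.coeff_single, Finsupp.single_apply]
    norm_cast

theorem ρ_toLaurent (p : ℤ[X]) : ρ (toLaurent p) = ε p := by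
  change (((toLaurent p).coeff 0 : ℤ) : ZMod 2) = ((p.coeff 0 : ℤ) : ZMod 2)
  rw [toLaurent_coeff_zero]

/-- `𝔽₂` as a `ℤ[X]`-module -/
noncomputable abbrev modε : Module ℤ[X] (ZMod 2) := Module.compHom (ZMod 2) ε

attribute [local instance] modε

theorem smul_def' (p : ℤ[X]) (a : ZMod 2) : p • a = ε p * a := rfl

/-- invariant functions with values in `𝔽₂` -/
noncomputable def NF : FunMod RF (ZMod 2) where
  F := fun X =>
    { carrier := {φ | ∀ x, φ ((-1 : G2) • x) = φ x}
      add_mem' := fun {a b} ha hb x => by simp [ha x, hb x]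
      zero_mem' := fun x => rfl
      neg_mem' := fun {a} ha x => by simp [ha x] }
  smul_mem := by
    intro X r φ hr hφ x
    change r _ • φ _ = r _ • φ _
    rw [hφ x, hr x]
  pull := by
    intro X Y f φ hφ x
    change φ (f ((-1 : G2) • x)) = φ (f x)
    rw [map_neg_smul]; exact hφ _
  push := by
    intro X Y f φ hφ y
    exact fiberSum_invariant f φ hφ y
  glue := by
    intro X Y Z i j hij φ h1 h2 z
    obtain ⟨t, rfl⟩ := hij.2 z
    rcases t with x | y
    · have := h1 x
      simpa [map_neg_smul] using this
    · have := h2 y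
      simpa [map_neg_smul] using this

/-- all functions with values in `𝔽₂` -/
noncomputable def NF' : FunMod RF (ZMod 2) where
  F := fun _ => ⊤
  smul_mem := fun _ _ => trivial
  pull := fun _ _ _ => trivial
  push := fun _ _ _ => trivial
  glue := fun _ _ _ _ _ _ => trivial

noncomputable def N : GModule R := NF.gmodule
noncomputable def N' : GModule R := NF'.gmodule

noncomputable def N.val {X : FinGSet G2} (n : N.obj X) : X → ZMod 2 := (n : NF.F X).1
noncomputable def N'.val {X : FinGSet G2} (n : N'.obj X) : X → ZMod 2 := (n : NF'.F X).1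
noncomputable def N.mk {X : FinGSet G2} (r : X → ZMod 2) (h : ∀ x, r ((-1 : G2) • x) = r x) :
  N.obj X := (⟨r, h⟩ : NF.F X)
noncomputable def N'.mk {X : FinGSet G2} (r : X → ZMod 2) :
    N'.obj X := (⟨r, trivial⟩ : NF'.F X)
theorem N.ext {X : FinGSet G2} {r s : N.obj X} (h : ∀ x, N.val r x = N.val s x) : r = s :=
  Subtype.ext (funext h)
theorem N'.ext {X : FinGSet G2} {r s : N'.obj X} (h : ∀ x, N'.val r x = N'.val s x) : r = s :=
  Subtype.ext (funext h)
theorem N.inv {X : FinGSet G2} (r : N.obj X) (x : X) : N.val r ((-1 : G2) • x) = N.val r x :=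
  (r : NF.F X).2 x
theorem N.val_tr {X Y : FinGSet G2} (f : GMap X Y) (r : N.obj X) :
  N.val (N.trH f r) = fiberSum f (N.val r) := rfl
theorem N'.val_tr {X Y : FinGSet G2} (f : GMap X Y) (r : N'.obj X) :
  N'.val (N'.trH f r) = fiberSum f (N'.val r) := rfl
theorem N.val_res {X Y : FinGSet G2} (f : GMap X Y) (r : N.obj Y) (x : X) :
  N.val (N.resH f r) x = N.val r (f x) := rfl
@[simp] theorem N.val_add {X : FinGSet G2} (r s : N.obj X) (x : X) :
  N.val (r + s) x = N.val r x + N.val s x := rfl
@[simp] theorem N.val_sub {X : FinGSet G2} (r s : N.obj X) (x : X) :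
  N.val (r - s) x = N.val r x - N.val s x := rfl
@[simp] theorem N.val_zero {X : FinGSet G2} (x : X) : N.val (0 : N.obj X) x = 0 := rfl
@[simp] theorem N'.val_zero {X : FinGSet G2} (x : X) : N'.val (0 : N'.obj X) x = 0 := rfl
@[simp] theorem N.val_mk {X : FinGSet G2} (r : X → ZMod 2) (h) : N.val (N.mk r h) = r := rfl
@[simp] theorem N'.val_mk {X : FinGSet G2} (r : X → ZMod 2) : N'.val (N'.mk r) = r := rfl
theorem N.val_smul {X : FinGSet G2} (r : R.obj X) (n : N.obj X) (x : X) :
  N.val (r • n) x = ε (R.val r x) * N.val n x := rfl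
theorem N'.val_smul {X : FinGSet G2} (r : R.obj X) (n : N'.obj X) (x : X) :
  N'.val (r • n) x = ε (R.val r x) * N'.val n x := rfl

theorem ε_X : ε Polynomial.X = 0 := by
  simp [ε]

theorem N.x_smul {X : FinGSet G2} (n : N.obj X) : xc X • n = 0 := by
  apply N.ext
  intro x
  rw [N.val_smul, xc_val, ε_X, zero_mul, N.val_zero]

theorem N'.x_smul {X : FinGSet G2} (n : N'.obj X) : xc X • n = 0 := by
  apply N'.ext
  intro x
  rw [N'.val_smul, xc_val, ε_X, zero_mul, N'.val_zero]

/-- the inclusion `N → N'` -/
noncomputable def incl : GModule.Hom N N' :=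
  GModule.Hom.mk'
    (fun X =>
      { toFun := fun n => N'.mk (N.val n)
        map_add' := fun _ _ => rfl
        map_smul' := fun _ _ => rfl })
    (fun _ _ => rfl)
    (fun _ _ => rfl)

/-- the zero module -/
noncomputable def Z : GModule R where
  obj := fun _ => PUnit
  grp := fun _ => inferInstance
  mod := fun _ => inferInstance
  res := fun _ _ => PUnit.unit
  tr := fun _ _ => PUnit.unit
  mackey :=
    { res_add := fun _ _ _ => rfl
      tr_add := fun _ _ _ => rfl
      res_id := fun _ _ => rfl
      tr_id := fun _ _ => rfl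
      res_comp := fun _ _ _ => rfl
      tr_comp := fun _ _ _ => rfl
      base_change := fun _ _ _ _ _ _ => rfl
      additive := fun _ _ _ => ⟨fun _ _ _ => rfl, fun _ => ⟨PUnit.unit, rfl⟩⟩
      empty := fun _ _ => inferInstanceAs (Subsingleton PUnit) }
  res_smul := fun _ _ _ => rfl
  tr_smul := fun _ _ _ => rfl
  smul_tr := fun _ _ _ => rfl

instance (X : FinGSet G2) : Subsingleton (Z.obj X) := inferInstanceAs (Subsingleton PUnit)

/-- zero homomorphism -/
noncomputable def zeroHom (M M' : GModule R) : GModule.Hom M M' :=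
  GModule.Hom.mk' (fun _ => 0) (fun f m => by simp) (fun f m => by simp)

/-- zero pairing -/
noncomputable def zeroPairing (M M' M'' : GModule R) : Pairing M M' M'' :=
  Pairing.mk' (fun _ => 0) (fun f m n => by simp) (fun f m n => by simp) (fun f m n => by simp)

theorem GModule.Hom.ext' {G : Type} [Group G] {R : GreenFunctor G} {M M' : GModule R}
    {h h' : GModule.Hom M M'} (H : ∀ X r, h.hom X r = h'.hom X r) : h = h' := by
  obtain ⟨a, b, c, d, e⟩ := h
  obtain ⟨a', b', c', d', e'⟩ := h'
  have : a = a' := by
    funext X r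
    exact H X r
  subst this
  rfl

theorem zero_isBoxProduct {M M' : GModule R}
    (h : ∀ (P : GModule R) (ψ : Pairing M M' P) X m n, ψ.bil X m n = 0) :
    (zeroPairing M M' Z).IsBoxProduct := by
  intro P ψ
  refine ⟨zeroHom Z P, fun X m n => (h P ψ X m n).symm, fun h' _ => ?_⟩
  · apply GModule.Hom.ext'
    intro X r
    have : r = 0 := Subsingleton.elim _ _
    rw [this, map_zero, map_zero]

theorem free_vanish {M P : GModule R} (ψ : Pairing ι.toModule M P)
    (hM : ∀ Y (n : M.obj Y), xc Y • n = 0) {Y : FinGSet G2} (hY : IsFree Y)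
    (s : ι.toModule.obj Y) (n : M.obj Y) : ψ.bil Y s n = 0 := by
  let t : S.obj Y := S.mk (fun _ => LaurentPolynomial.T (-1)) (fun _ => rfl)
    (fun x hx => absurd hx (hY.ne x))
  have h1 : ι.hom Y (xc Y) * t = 1 := by
    apply S.ext
    intro x
    rw [S.val_mul, ι_val, xc_val, S.val_mk, Polynomial.toLaurent_X, ← LaurentPolynomial.T_add,
      S.val_one]
    simp
  let s₀ : S.obj Y := s
  let s' : ι.toModule.obj Y := t * s₀
  have h2 : xc Y • s' = s := by
    change ι.hom Y (xc Y) * (t * s₀) = s₀
    rw [← mul_assoc, h1, one_mul]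
  rw [← h2, map_smul, LinearMap.smul_apply, ← map_smul, hM, map_zero]

/-- any pairing `S × N' → P` is zero -/
theorem N'_vanish (P : GModule R) (ψ : Pairing ι.toModule N' P) (X : FinGSet G2)
    (s : ι.toModule.obj X) (n : N'.obj X) : ψ.bil X s n = 0 := by
  classical
  let m : N'.obj (fr X) := N'.mk (fun p => if p.2 = 1 then N'.val n p.1 else 0)
  have h : n = N'.trH (π X) m := by
    apply N'.ext
    intro x
    rw [N'.val_tr, tr_π_val]
    change _ = (if (1 : G2) = 1 then N'.val n x else 0) +
      (if (-1 : G2) = 1 then N'.val n x else 0)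
    rw [if_pos rfl, if_neg (by decide), add_zero]
  rw [h, ← ψ.tr_right', free_vanish ψ (fun _ => N'.x_smul) (isFree_fr X), map_zero]

/-- pairing with an element of `N` vanishing at the fixed points is zero -/
theorem N_vanish (P : GModule R) (ψ : Pairing ι.toModule N P) (X : FinGSet G2)
    (s : ι.toModule.obj X) (n : N.obj X) (hn : ∀ x, (-1 : G2) • x = x → N.val n x = 0) :
    ψ.bil X s n = 0 := by
  classical
  obtain ⟨Rep, hRep⟩ := exists_rep X
  let v : X → ZMod 2 := fun x => if (-1 : G2) • x = x then 0 else if Rep x then N.val n x else 0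
  let m : N.obj (fr X) := N.mk (lf v) (lf_inv v)
  have h : n = N.trH (π X) m := by
    apply N.ext
    intro x
    rw [N.val_tr, tr_π_val]
    change N.val n x = v ((1 : G2) • x) + v ((-1 : G2) • x)
    rw [one_smul]
    by_cases hx : (-1 : G2) • x = x
    · simp only [v, hx, if_true, add_zero]
      exact hn x hx
    · have hx' : (-1 : G2) • (-1 : G2) • x ≠ (-1 : G2) • x := by
        rw [neg_neg_smul]; exact fun h => hx h.symm
      simp only [v, if_neg hx, if_neg hx']
      by_cases hrep : Rep x
      · have : ¬ Rep ((-1 : G2) • x) := by rw [hRep x hx]; exact fun h => h hrep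
        rw [if_pos hrep, if_neg this, add_zero]
      · have : Rep ((-1 : G2) • x) := by rw [hRep x hx]; exact hrep
        rw [if_neg hrep, if_pos this, zero_add, N.inv]
  rw [h, ← ψ.tr_right', free_vanish ψ (fun _ => N.x_smul) (isFree_fr X), map_zero]

/-- fixed points -/
abbrev Fix (X : FinGSet G2) : Type := {x : X // (-1 : G2) • x = x}

def fixMap {X Y : FinGSet G2} (f : GMap X Y) : Fix X → Fix Y :=
  fun x => ⟨f x.1, by rw [← map_neg_smul, x.2]⟩

/-- the module `T` with `T(X)` the functions from the fixed points of `X` to `𝔽₂` -/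
noncomputable def T : GModule R where
  obj := fun X => Fix X → ZMod 2
  grp := fun X => inferInstance
  mod := fun X =>
    { smul := fun r φ => fun x => ε (R.val r x.1) * φ x
      one_smul := fun φ => by
        funext x; change ε (R.val (1 : R.obj X) x.1) * φ x = φ x
        rw [R.val_one, map_one, one_mul]
      mul_smul := fun r s φ => by
        funext x; change ε (R.val (r * s) x.1) * φ x = ε (R.val r x.1) * (ε (R.val s x.1) * φ x)
        rw [R.val_mul, map_mul, mul_assoc]
      smul_zero := fun r => by funext x; exact mul_zero _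
      smul_add := fun r φ ψ => by funext x; exact mul_add _ _ _
      add_smul := fun r s φ => by
        funext x
        change ε (R.val (r + s) x.1) * φ x = ε (R.val r x.1) * φ x + ε (R.val s x.1) * φ x
        rw [R.val_add, map_add, add_mul]
      zero_smul := fun φ => by
        funext x; change ε (R.val (0 : R.obj X) x.1) * φ x = 0
        rw [R.val_zero, map_zero, zero_mul] }
  res := fun {X Y} f φ => (φ : Fix Y → ZMod 2) ∘ fixMap f
  tr := fun {X Y} f φ => fiberSum (fixMap f) (φ : Fix X → ZMod 2)
  mackey :=
    { res_add := fun _ _ _ => rfl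
      tr_add := fun f a b => fiberSum_add (fixMap f) a b
      res_id := fun X a => rfl
      tr_id := fun X a => fiberSum_id a
      res_comp := fun f g a => rfl
      tr_comp := fun f g a => fiberSum_comp (fixMap f) (fixMap g) a
      base_change := by
        intro P X Y Z p q f g h a
        apply fiberSum_baseChange (fixMap p) (fixMap q) (fixMap f) (fixMap g)
        · intro a
          exact Subtype.ext (h.1 a.1)
        · rintro ⟨x, hx⟩ ⟨y, hy⟩ hxy
          obtain ⟨c, ⟨h1, h2⟩, h3⟩ := h.2 x y (congrArg Subtype.val hxy)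
          have h4 : (-1 : G2) • c = c := by
            apply h3
            rw [map_neg_smul, map_neg_smul, h1, h2]
            exact ⟨hx, hy⟩
          refine ⟨⟨c, h4⟩, ⟨Subtype.ext h1, Subtype.ext h2⟩, ?_⟩
          rintro ⟨d, hd⟩ ⟨h5, h6⟩
          exact Subtype.ext (h3 d ⟨congrArg Subtype.val h5, congrArg Subtype.val h6⟩)
      additive := by
        intro X Y Z i j hij
        have hi : Function.Injective i := fun a b h => Sum.inl_injective
          (hij.1 (show Sum.elim i j (Sum.inl a) = Sum.elim i j (Sum.inl b) from h))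
        have hj : Function.Injective j := fun a b h => Sum.inr_injective
          (hij.1 (show Sum.elim i j (Sum.inr a) = Sum.elim i j (Sum.inr b) from h))
        have hb : Function.Bijective (Sum.elim (fixMap i) (fixMap j)) := by
          constructor
          · rintro (a | a) (b | b) h
            · have : i a.1 = i b.1 := congrArg Subtype.val h
              rw [Subtype.ext (hi this)]
            · have : Sum.elim i j (Sum.inl a.1) = Sum.elim i j (Sum.inr b.1) :=
                congrArg Subtype.val h
              exact absurd (hij.1 this) Sum.inl_ne_inr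
            · have : Sum.elim i j (Sum.inr a.1) = Sum.elim i j (Sum.inl b.1) :=
                congrArg Subtype.val h
              exact absurd (hij.1 this) Sum.inr_ne_inl
            · have : j a.1 = j b.1 := congrArg Subtype.val h
              rw [Subtype.ext (hj this)]
          · rintro ⟨z, hz⟩
            obtain ⟨t, rfl⟩ := hij.2 z
            rcases t with x | y
            · refine ⟨Sum.inl ⟨x, hi ?_⟩, rfl⟩
              rw [map_neg_smul]; exact hz
            · refine ⟨Sum.inr ⟨y, hj ?_⟩, rfl⟩
              rw [map_neg_smul]; exact hz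
        constructor
        · intro a b hab
          have h1 : a ∘ fixMap i = b ∘ fixMap i := congrArg Prod.fst hab
          have h2 : a ∘ fixMap j = b ∘ fixMap j := congrArg Prod.snd hab
          funext z
          obtain ⟨t, rfl⟩ := hb.2 z
          rcases t with x | y
          · exact congrFun h1 x
          · exact congrFun h2 y
        · rintro ⟨a, b⟩
          let e := Equiv.ofBijective _ hb
          have hei : ∀ x, e.symm (fixMap i x) = Sum.inl x := fun x => by
            rw [Equiv.symm_apply_eq]; rfl
          have hej : ∀ x, e.symm (fixMap j x) = Sum.inr x := fun x => by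
            rw [Equiv.symm_apply_eq]; rfl
          refine ⟨fun z => Sum.elim a b (e.symm z), Prod.ext ?_ ?_⟩
          · funext x
            change Sum.elim a b (e.symm (fixMap i x)) = a x
            rw [hei]; rfl
          · funext x
            change Sum.elim a b (e.symm (fixMap j x)) = b x
            rw [hej]; rfl
      empty := by
        intro X hX
        constructor
        intro a b
        funext x
        exact hX.elim x.1 }
  res_smul := fun f r m => rfl
  tr_smul := by
    intro X Y f r m
    exact fiberSum_smul (A := ZMod 2) (fixMap f) (fun y => ε (R.val r y.1)) m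
  smul_tr := by
    intro X Y f r m
    have h1 := fiberSum_smul' (A := ZMod 2) (fixMap f) (fun x => ε (R.val r x.1)) m
    refine h1.trans ?_
    funext y
    change fiberSum (fixMap f) (fun x => ε (R.val r x.1)) y * m y =
      ε (fiberSum f (R.val r) y.1) * m y
    obtain ⟨b, hb⟩ := fiberSum_split f (R.val r) (R.inv r) y.1 y.2
    rw [hb, map_add, map_add, CharTwo.add_self_eq_zero, add_zero]
    congr 1
    symm
    refine (map_fiberSum ε.toAddMonoidHom _ _ _).trans ?_
    classical
    unfold fiberSum
    apply Finset.sum_congr _ (fun _ _ => rfl)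
    ext x
    simp only [Set.Finite.mem_toFinset, Set.mem_ofPred_eq, fixMap, Subtype.ext_iff]

end Pool.Agent.Helper59_Green
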