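import Pool.Agent.Helper59_Green.Ex4

set_option autoImplicit false

open scoped Polynomial LaurentPolynomial
open Polynomial (toLaurent)

namespace Pool.Agent.Helper59_Green

attribute [local instance] modε

theorem ρ_smul (r : ℤ[X]) (a : ℤ[T;T⁻¹]) (ha : a ∈ C) : ρ (toLaurent r * a) = ε r * ρ a := by
  obtain ⟨p, q, rfl⟩ := ha
  have : toLaurent r * (toLaurent p + (q + q)) =
      toLaurent (r * p) + (toLaurent r * q + toLaurent r * q) := by
    rw [map_mul]; ring
  rw [this, map_add ρ (toLaurent (r * p)), map_add ρ (toLaurent p), ρ_double, ρ_double, ρ_toLaurent, ρ_toLaurent, map_mul,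
    add_zero, add_zero]

theorem S.val_smul {X : FinGSet G2} (r : R.obj X) (s : ι.toModule.obj X) (x : X) :
    S.val (r • s : ι.toModule.obj X) x = toLaurent (R.val r x) * S.val (s : S.obj X) x := rfl

theorem fixSum_eq {X Y : FinGSet G2} {B : Type} [AddCommMonoid B] (f : GMap X Y)
    (φ : X → B) (y : Fix Y) :
    fiberSum (fun x : {x : X // (-1 : G2) • x = x} => f x.1) (fun x => φ x.1) y.1 =
      fiberSum (fixMap f) (fun x => φ x.1) y := by
  classical
  unfold fiberSum
  apply Finset.sum_congr _ (fun _ _ => rfl)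
  ext x
  simp only [Set.Finite.mem_toFinset, Set.mem_ofPred_eq, fixMap, Subtype.ext_iff]

/-- the universal pairing `S × N → T` -/
noncomputable def θ : Pairing ι.toModule N T :=
  Pairing.mk'
    (fun X => LinearMap.mk₂ (R.obj X)
      (fun (s : ι.toModule.obj X) (n : N.obj X) =>
        ((fun x => ρ (S.val (s : S.obj X) x.1) * N.val n x.1 : Fix X → ZMod 2) : T.obj X))
      (fun s t n => by
        funext x
        change ρ (S.val (s : S.obj X) x.1 + S.val (t : S.obj X) x.1) * _ = _ * _ + _ * _
        rw [map_add, add_mul])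
      (fun r s n => by
        funext x
        change ρ (toLaurent (R.val r x.1) * S.val (s : S.obj X) x.1) * _ =
          ε (R.val r x.1) * (ρ (S.val (s : S.obj X) x.1) * N.val n x.1)
        rw [ρ_smul _ _ (S.fix s x.1 x.2), mul_assoc])
      (fun s n m => by
        funext x
        change _ * (N.val n x.1 + N.val m x.1) = _ * _ + _ * _
        rw [mul_add])
      (fun r s n => by
        funext x
        change ρ (S.val (s : S.obj X) x.1) * (ε (R.val r x.1) * N.val n x.1) =
          ε (R.val r x.1) * (ρ (S.val (s : S.obj X) x.1) * N.val n x.1)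
        ring))
    (fun f s n => rfl)
    (by
      intro X Y f s n
      funext y
      change fiberSum (fixMap f) (fun x => ρ (S.val (s : S.obj X) x.1) * N.val n (fixMap f x).1) y
        = ρ (fiberSum f (S.val (s : S.obj X)) y.1) * N.val n y.1
      obtain ⟨b, hb⟩ := fiberSum_split f (S.val (s : S.obj X)) (S.inv s) y.1 y.2
      rw [hb, map_add, ρ_double, add_zero, fixSum_eq f (S.val (s : S.obj X)) y, map_fiberSum]
      have h := fiberSum_smul' (A := ZMod 2) (fixMap f) (fun x => ρ (S.val (s : S.obj X) x.1))
        (fun y : Fix Y => N.val n y.1)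
      exact congrFun h y)
    (by
      intro X Y f s n
      funext y
      change fiberSum (fixMap f) (fun x => ρ (S.val (s : S.obj Y) (fixMap f x).1) * N.val n x.1) y
        = ρ (S.val (s : S.obj Y) y.1) * fiberSum f (N.val n) y.1
      obtain ⟨b, hb⟩ := fiberSum_split f (N.val n) (N.inv n) y.1 y.2
      rw [hb, CharTwo.add_self_eq_zero, add_zero, fixSum_eq f (N.val n) y]
      have h := fiberSum_smul (A := ZMod 2) (fixMap f)
        (fun y : Fix Y => ρ (S.val (s : S.obj Y) y.1)) (fun x => N.val n x.1)
      exact congrFun h y)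

/-- the function underlying an element of `T(X)` -/
def T.val {X : FinGSet G2} (p : T.obj X) : Fix X → ZMod 2 := p

theorem T.ext {X : FinGSet G2} {p q : T.obj X} (h : ∀ x, T.val p x = T.val q x) : p = q :=
  funext h

theorem T.val_add {X : FinGSet G2} (p q : T.obj X) (x : Fix X) :
  T.val (p + q) x = T.val p x + T.val q x := rfl
theorem T.val_smul {X : FinGSet G2} (r : R.obj X) (q : T.obj X) (x : Fix X) :
  T.val (r • q) x = ε (R.val r x.1) * T.val q x := rfl
theorem T.val_res {X Y : FinGSet G2} (f : GMap X Y) (q : T.obj Y) (x : Fix X) :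
  T.val (T.resH f q) x = T.val q (fixMap f x) := rfl
theorem T.val_tr {X Y : FinGSet G2} (f : GMap X Y) (q : T.obj X) (x : Fix Y) :
  T.val (T.trH f q) x = fiberSum (fixMap f) (T.val q) x := rfl

/-- the function underlying an element of `S(X)` -/
noncomputable def SM.val {X : FinGSet G2} (s : ι.toModule.obj X) : X → ℤ[T;T⁻¹] :=
  S.val (s : S.obj X)

/-- regard an element of `S(X)` as an element of the module -/
def SM.mk {X : FinGSet G2} (s : S.obj X) : ι.toModule.obj X := s

theorem SM.val_mk {X : FinGSet G2} (s : S.obj X) : SM.val (SM.mk s) = S.val s := rfl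

theorem θ_map {X : FinGSet G2} (s : ι.toModule.obj X) (n : N.obj X) (x : Fix X) :
    T.val (θ.bil X s n) x = ρ (SM.val s x.1) * N.val n x.1 := rfl

open Classical in
/-- extension by zero -/
noncomputable def ext0 {X : FinGSet G2} (p : T.obj X) : N.obj X :=
  N.mk (fun x => if h : (-1 : G2) • x = x then T.val p ⟨x, h⟩ else 0) (by
    intro x
    by_cases hx : (-1 : G2) • x = x
    · simp only [hx]
    · rw [dif_neg hx, dif_neg]
      rw [neg_neg_smul]; exact fun h => hx h.symm)

theorem ext0_val {X : FinGSet G2} (p : T.obj X) (x : X) (hx : (-1 : G2) • x = x) :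
    N.val (ext0 p) x = T.val p ⟨x, hx⟩ := by
  unfold ext0
  rw [N.val_mk, dif_pos hx]

section

variable {P : GModule R} (ψ : Pairing ι.toModule N P)

/-- two elements of `N` agreeing at fixed points pair equally -/
theorem pair_congr {X : FinGSet G2} (s : ι.toModule.obj X) (n m : N.obj X)
    (h : ∀ x, (-1 : G2) • x = x → N.val n x = N.val m x) : ψ.bil X s n = ψ.bil X s m := by
  rw [← sub_eq_zero, ← map_sub]
  apply N_vanish
  intro x hx
  rw [N.val_sub, h x hx, sub_self]

/-- the unit of `S` -/
noncomputable def one' (X : FinGSet G2) : ι.toModule.obj X := SM.mk 1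

theorem res_one' {X Y : FinGSet G2} (f : GMap X Y) : ι.toModule.resH f (one' Y) = one' X :=
  map_one (S.resH f)

theorem val_one' {X : FinGSet G2} (x : X) : SM.val (one' X) x = 1 := rfl

/-- the induced homomorphism `T → P` -/
noncomputable def ind : GModule.Hom T P :=
  GModule.Hom.mk'
    (fun X =>
      { toFun := fun p => ψ.bil X (one' X) (ext0 p)
        map_add' := fun p q => by
          rw [← map_add]
          apply pair_congr
          intro x hx
          rw [ext0_val _ x hx, N.val_add, ext0_val _ x hx, ext0_val _ x hx]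
          rfl
        map_smul' := fun r p => by
          rw [RingHom.id_apply, ← map_smul]
          apply pair_congr
          intro x hx
          rw [ext0_val _ x hx, N.val_smul, ext0_val _ x hx]
          rfl })
    (by
      intro X Y f p
      change ψ.bil X (one' X) (ext0 (T.resH f p)) = P.resH f (ψ.bil Y (one' Y) (ext0 p))
      rw [ψ.res_bil, res_one']
      apply pair_congr
      intro x hx
      have hx' : (-1 : G2) • f x = f x := by rw [← map_neg_smul, hx]
      rw [ext0_val _ x hx, N.val_res, ext0_val _ (f x) hx']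
      rfl)
    (by
      intro X Y f p
      change ψ.bil Y (one' Y) (ext0 (T.trH f p)) = P.trH f (ψ.bil X (one' X) (ext0 p))
      rw [← res_one' f, ψ.tr_right']
      apply pair_congr
      intro y hy
      rw [ext0_val _ y hy, N.val_tr, T.val_tr]
      obtain ⟨b, hb⟩ := fiberSum_split f (N.val (ext0 p)) (N.inv _) y hy
      rw [hb, CharTwo.add_self_eq_zero, add_zero]
      have h2 := fixSum_eq f (N.val (ext0 p)) ⟨y, hy⟩
      rw [h2]
      congr 1
      funext x
      exact (ext0_val _ x.1 x.2).symm)

theorem ind_app {X : FinGSet G2} (p : T.obj X) :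
    (ind ψ).hom X p = ψ.bil X (one' X) (ext0 p) := rfl

theorem ind_θ {X : FinGSet G2} (s : ι.toModule.obj X) (n : N.obj X) :
    (ind ψ).hom X (θ.bil X s n) = ψ.bil X s n := by
  rw [ind_app]
  obtain ⟨r, z, hs⟩ := α_surj (s : S.obj X)
  have h1 : s = r • (one' X) + ι.toModule.trH (π X) (SM.mk z) := by
    have : (r • (one' X) : ι.toModule.obj X) = SM.mk (ι.hom X r) := mul_one (ι.hom X r)
    rw [this]; exact hs
  have h2 : ψ.bil X s n = ψ.bil X (one' X) (r • n) := by
    rw [h1, map_add, LinearMap.add_apply, ← ψ.tr_left',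
      free_vanish ψ (fun _ => N.x_smul) (isFree_fr X), map_zero, add_zero, map_smul,
      LinearMap.smul_apply, map_smul]
  rw [h2]
  apply pair_congr
  intro x hx
  rw [ext0_val _ x hx, θ_map, N.val_smul]
  congr 1
  have h4 : SM.val s x = S.val (ι.hom X r + S.trH (π X) z) x := by rw [← hs]; rfl
  rw [h4, S.val_add, S.val_tr, tr_π_val, ι_val, map_add, ρ_toLaurent]
  have h3 : S.val z (mkfr x (-1)) = S.val z (mkfr x 1) := by
    rw [← S.inv z (mkfr x 1)]
    congr 1
    exact Prod.ext hx.symm (by change (-1 : G2) = (-1) * 1; decide)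
  rw [h3, ρ_double, add_zero]

theorem θ_isBoxProduct : θ.IsBoxProduct := by
  intro P ψ
  refine ⟨ind ψ, fun X s n => ind_θ ψ s n, fun h hh => ?_⟩
  apply GModule.Hom.ext'
  intro X p
  have h1 : θ.bil X (one' X) (ext0 p) = p := by
    apply T.ext
    intro x
    rw [θ_map, ext0_val _ x.1 x.2, val_one', ← map_one (toLaurent : ℤ[X] →+* ℤ[T;T⁻¹]),
      ρ_toLaurent, map_one, one_mul]
  have hh' : ∀ X s n, h.hom X (θ.bil X s n) = ψ.bil X s n := hh
  rw [← h1, hh', ind_θ]

end

/-- the one point `G`-set -/
def pt : FinGSet G2 where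
  carrier := G2 ⧸ (⊤ : Subgroup G2)

theorem not_flat : ¬ (ι.toModule).IsFlat := by
  intro hflat
  have hZ : (zeroPairing ι.toModule Z Z).IsBoxProduct := by
    apply zero_isBoxProduct
    intro P ψ X m n
    have : n = 0 := Subsingleton.elim _ _
    rw [this, map_zero]
  have hN' : (zeroPairing ι.toModule N' Z).IsBoxProduct := by
    apply zero_isBoxProduct
    intro P ψ X m n
    exact N'_vanish P ψ X m n
  have hex : IsExact (zeroHom Z N) incl := by
    intro X n
    constructor
    · intro h
      refine ⟨0, ?_⟩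
      change 0 = n
      symm
      apply N.ext
      intro x
      have h2 : N'.val (incl.hom X n) x = N'.val (0 : N'.obj X) x := congrArg (fun t => N'.val t x) h
      exact h2
    · rintro ⟨z, rfl⟩
      rfl
  have h := hflat Z N N' (zeroHom Z N) incl hex Z T Z (zeroPairing _ _ _) θ (zeroPairing _ _ _)
    hZ θ_isBoxProduct hN' (zeroHom Z T) (zeroHom T Z)
    (fun X m n => by
      have : n = 0 := Subsingleton.elim _ _
      rw [this]
      exact (map_zero (θ.bil X m)).symm)
    (fun X m n => rfl) pt
  let e : T.obj pt := (fun _ => 1 : Fix pt → ZMod 2)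
  obtain ⟨z, hz⟩ := (h e).1 rfl
  have hz0 : e = 0 := by
    rw [← hz]; rfl
  have hfix : (-1 : G2) • (QuotientGroup.mk (1 : G2) : G2 ⧸ (⊤ : Subgroup G2)) =
      QuotientGroup.mk (1 : G2) := by
    change (QuotientGroup.mk ((-1 : G2) * 1) : G2 ⧸ (⊤ : Subgroup G2)) = _
    rw [QuotientGroup.eq]
    trivial
  have := congrFun hz0 ⟨QuotientGroup.mk (1 : G2), hfix⟩
  exact absurd this (by change (1 : ZMod 2) ≠ 0; decide)

end Pool.Agent.Helper59_Green
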