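import Pool.Agent.Helper59_Green.Bundle

set_option autoImplicit false

namespace Pool.Agent.Helper59_Green

open Classical in
/-- Sum of the values of `φ` over the fibre of `f` at `y`. -/
noncomputable def fiberSum {X Y B : Type} [Finite X] [AddCommMonoid B] (f : X → Y) (φ : X → B)
    (y : Y) : B :=
  ∑ x ∈ (Set.toFinite {x | f x = y}).toFinset, φ x

section lemmas

set_option linter.unusedSectionVars false

variable {X Y Z P B : Type} [Finite X] [Finite Y] [Finite Z] [Finite P] [AddCommMonoid B]

theorem fiberSum_def (f : X → Y) (φ : X → B) (y : Y) (s : Finset X) (hs : ∀ x, x ∈ s ↔ f x = y) :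
    fiberSum f φ y = ∑ x ∈ s, φ x := by
  classical
  unfold fiberSum
  apply Finset.sum_congr _ (fun _ _ => rfl)
  ext x; simp [hs]

theorem fiberSum_id (φ : X → B) : fiberSum id φ = φ := by
  funext x
  rw [fiberSum_def id φ x {x} (by simp)]
  simp

theorem fiberSum_add (f : X → Y) (φ ψ : X → B) :
    fiberSum f (φ + ψ) = fiberSum f φ + fiberSum f ψ := by
  funext y
  simp [fiberSum, Finset.sum_add_distrib]

theorem fiberSum_zero (f : X → Y) : fiberSum f (0 : X → B) = 0 := by
  funext y
  simp [fiberSum]

theorem fiberSum_comp (f : X → Y) (g : Y → Z) (φ : X → B) :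
    fiberSum (g ∘ f) φ = fiberSum g (fiberSum f φ) := by
  classical
  funext z
  unfold fiberSum
  rw [← Finset.sum_fiberwise_of_maps_to (s := (Set.toFinite {x | (g ∘ f) x = z}).toFinset)
    (t := (Set.toFinite {y | g y = z}).toFinset) (g := f)]
  · apply Finset.sum_congr rfl
    intro y hy
    apply Finset.sum_congr _ (fun _ _ => rfl)
    ext x
    simp only [Set.Finite.mem_toFinset, Set.mem_ofPred_eq, Finset.mem_filter, Function.comp] at *
    constructor
    · rintro ⟨_, h⟩; exact h
    · intro h; exact ⟨by rw [h]; exact hy, h⟩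
  · intro x hx
    simpa using hx

theorem fiberSum_baseChange (p : P → X) (q : P → Y) (f : X → Z) (g : Y → Z)
    (hc : ∀ a, f (p a) = g (q a)) (hp : ∀ x y, f x = g y → ∃! a, p a = x ∧ q a = y)
    (φ : X → B) : (fiberSum f φ) ∘ g = fiberSum q (φ ∘ p) := by
  classical
  funext y
  unfold fiberSum
  simp only [Function.comp]
  symm
  apply Finset.sum_bij (fun a _ => p a)
  · intro a ha
    simp only [Set.Finite.mem_toFinset, Set.mem_ofPred_eq] at ha ⊢
    rw [hc, ha]
  · intro a ha a' ha' h
    simp only [Set.Finite.mem_toFinset, Set.mem_ofPred_eq] at ha ha'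
    exact (hp (p a) y (by rw [hc, ha])).unique ⟨rfl, ha⟩ ⟨h.symm, ha'⟩
  · intro x hx
    simp only [Set.Finite.mem_toFinset, Set.mem_ofPred_eq] at hx
    obtain ⟨a, ha, -⟩ := hp x y hx
    exact ⟨a, by simpa using ha.2, ha.1⟩
  · intro a _
    rfl

end lemmas

theorem fiberSum_neg {X Y B : Type} [Finite X] [AddCommGroup B] (f : X → Y) (φ : X → B) :
    fiberSum f (-φ) = - fiberSum f φ := by
  funext y
  simp [fiberSum]

theorem fiberSum_smul {X Y A B : Type} [Finite X] [CommRing A] [AddCommGroup B] [Module A B]
    (f : X → Y) (r : Y → A) (φ : X → B) :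
    fiberSum f (fun x => r (f x) • φ x) = fun y => r y • fiberSum f φ y := by
  classical
  funext y
  unfold fiberSum
  rw [Finset.smul_sum]
  apply Finset.sum_congr rfl
  intro x hx
  simp only [Set.Finite.mem_toFinset, Set.mem_ofPred_eq] at hx
  beta_reduce
  rw [hx]

theorem fiberSum_smul' {X Y A B : Type} [Finite X] [CommRing A] [AddCommGroup B] [Module A B]
    (f : X → Y) (r : X → A) (φ : Y → B) :
    fiberSum f (fun x => r x • φ (f x)) = fun y => fiberSum f r y • φ y := by
  classical
  funext y
  unfold fiberSum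
  rw [Finset.sum_smul]
  apply Finset.sum_congr rfl
  intro x hx
  simp only [Set.Finite.mem_toFinset, Set.mem_ofPred_eq] at hx
  beta_reduce
  rw [hx]

/-- A family of rings of functions closed under pullback, fibre sums, and gluing. -/
structure FunFam (G A : Type) [Group G] [CommRing A] where
  F : ∀ X : FinGSet G, Subring (X → A)
  pull : ∀ {X Y : FinGSet G} (f : GMap X Y) {φ : Y → A}, φ ∈ F Y → (φ ∘ f) ∈ F X
  push : ∀ {X Y : FinGSet G} (f : GMap X Y) {φ : X → A}, φ ∈ F X → fiberSum f φ ∈ F Y
  glue : ∀ {X Y Z : FinGSet G} (i : GMap X Z) (j : GMap Y Z),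
    Function.Bijective (Sum.elim i j) → ∀ φ : Z → A, φ ∘ i ∈ F X → φ ∘ j ∈ F Y → φ ∈ F Z

namespace FunFam

variable {G A : Type} [Group G] [CommRing A] (𝓕 : FunFam G A)

noncomputable def green : GreenFunctor G where
  obj := fun X => 𝓕.F X
  ring := fun X => inferInstance
  res := fun {X Y} f φ => ⟨(φ : 𝓕.F Y).1 ∘ f, 𝓕.pull f (φ : 𝓕.F Y).2⟩
  tr := fun {X Y} f φ => ⟨fiberSum f (φ : 𝓕.F X).1, 𝓕.push f (φ : 𝓕.F X).2⟩
  mackey :=
    { res_add := fun _ _ _ => rfl
      tr_add := fun _ _ _ => Subtype.ext (fiberSum_add _ _ _)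
      res_id := fun X a => Subtype.ext (by funext x; rfl)
      tr_id := fun X a => Subtype.ext (fiberSum_id a.1)
      res_comp := fun f g a => Subtype.ext (by funext x; rfl)
      tr_comp := fun f g a => Subtype.ext (fiberSum_comp f g a.1)
      base_change := fun p q f g h a => Subtype.ext (fiberSum_baseChange p q f g h.1 h.2 a.1)
      additive := by
        intro X Y Z i j hij
        constructor
        · intro a b hab
          apply Subtype.ext
          funext z
          have h1 : a.1 ∘ i = b.1 ∘ i := congrArg (fun t => (Prod.fst t).1) hab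
          have h2 : a.1 ∘ j = b.1 ∘ j := congrArg (fun t => (Prod.snd t).1) hab
          obtain ⟨t, rfl⟩ := hij.2 z
          rcases t with x | y
          · exact congrFun h1 x
          · exact congrFun h2 y
        · rintro ⟨a, b⟩
          let e := Equiv.ofBijective _ hij
          have hei : ∀ x, e.symm (i x) = Sum.inl x := fun x => by
            rw [Equiv.symm_apply_eq]; rfl
          have hej : ∀ x, e.symm (j x) = Sum.inr x := fun x => by
            rw [Equiv.symm_apply_eq]; rfl
          have h1 : (fun z => Sum.elim a.1 b.1 (e.symm z)) ∘ i = a.1 := by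
            funext x; simp [hei]
          have h2 : (fun z => Sum.elim a.1 b.1 (e.symm z)) ∘ j = b.1 := by
            funext x; simp [hej]
          refine ⟨⟨fun z => Sum.elim a.1 b.1 (e.symm z), 𝓕.glue i j hij _ ?_ ?_⟩, ?_⟩
          · rw [h1]; exact a.2
          · rw [h2]; exact b.2
          · exact Prod.ext (Subtype.ext h1) (Subtype.ext h2)
      empty := by
        intro X hX
        constructor
        intro a b
        apply Subtype.ext
        funext x
        exact hX.elim x }
  res_one := fun _ => rfl
  res_mul := fun _ _ _ => rfl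
  frobenius := by
    intro X Y f a b
    exact Subtype.ext (fiberSum_smul' f a.1 b.1)

end FunFam

/-- A family of groups of functions which is a module over a family of rings of functions. -/
structure FunMod {G A : Type} [Group G] [CommRing A] (𝓕 : FunFam G A) (B : Type)
    [AddCommGroup B] [Module A B] where
  F : ∀ X : FinGSet G, AddSubgroup (X → B)
  smul_mem : ∀ {X : FinGSet G} {r : X → A} {φ : X → B}, r ∈ 𝓕.F X → φ ∈ F X →
    (fun x => r x • φ x) ∈ F X
  pull : ∀ {X Y : FinGSet G} (f : GMap X Y) {φ : Y → B}, φ ∈ F Y → (φ ∘ f) ∈ F X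
  push : ∀ {X Y : FinGSet G} (f : GMap X Y) {φ : X → B}, φ ∈ F X → fiberSum f φ ∈ F Y
  glue : ∀ {X Y Z : FinGSet G} (i : GMap X Z) (j : GMap Y Z),
    Function.Bijective (Sum.elim i j) → ∀ φ : Z → B, φ ∘ i ∈ F X → φ ∘ j ∈ F Y → φ ∈ F Z

namespace FunMod

variable {G A : Type} [Group G] [CommRing A] {𝓕 : FunFam G A} {B : Type}
    [AddCommGroup B] [Module A B] (𝓜 : FunMod 𝓕 B)

noncomputable def gmodule : GModule 𝓕.green where
  obj := fun X => 𝓜.F X
  grp := fun X => inferInstance
  mod := fun X =>
    { smul := fun r φ => ⟨fun x => (r : 𝓕.F X).1 x • φ.1 x, 𝓜.smul_mem (r : 𝓕.F X).2 φ.2⟩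
      one_smul := fun φ => Subtype.ext (by funext x; exact one_smul A (φ.1 x))
      mul_smul := fun r s φ => Subtype.ext (by funext x; exact mul_smul _ _ (φ.1 x))
      smul_zero := fun r => Subtype.ext (by funext x; exact smul_zero _)
      smul_add := fun r φ ψ => Subtype.ext (by funext x; exact smul_add _ (φ.1 x) (ψ.1 x))
      add_smul := fun r s φ => Subtype.ext (by funext x; exact add_smul _ _ (φ.1 x))
      zero_smul := fun φ => Subtype.ext (by funext x; exact zero_smul A (φ.1 x)) }
  res := fun {X Y} f φ => ⟨(φ : 𝓜.F Y).1 ∘ f, 𝓜.pull f (φ : 𝓜.F Y).2⟩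
  tr := fun {X Y} f φ => ⟨fiberSum f (φ : 𝓜.F X).1, 𝓜.push f (φ : 𝓜.F X).2⟩
  mackey :=
    { res_add := fun _ _ _ => rfl
      tr_add := fun _ _ _ => Subtype.ext (fiberSum_add _ _ _)
      res_id := fun X a => Subtype.ext (by funext x; rfl)
      tr_id := fun X a => Subtype.ext (fiberSum_id a.1)
      res_comp := fun f g a => Subtype.ext (by funext x; rfl)
      tr_comp := fun f g a => Subtype.ext (fiberSum_comp f g a.1)
      base_change := fun p q f g h a => Subtype.ext (fiberSum_baseChange p q f g h.1 h.2 a.1)
      additive := by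
        intro X Y Z i j hij
        constructor
        · intro a b hab
          apply Subtype.ext
          funext z
          have h1 : a.1 ∘ i = b.1 ∘ i := congrArg (fun t => (Prod.fst t).1) hab
          have h2 : a.1 ∘ j = b.1 ∘ j := congrArg (fun t => (Prod.snd t).1) hab
          obtain ⟨t, rfl⟩ := hij.2 z
          rcases t with x | y
          · exact congrFun h1 x
          · exact congrFun h2 y
        · rintro ⟨a, b⟩
          let e := Equiv.ofBijective _ hij
          have hei : ∀ x, e.symm (i x) = Sum.inl x := fun x => by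
            rw [Equiv.symm_apply_eq]; rfl
          have hej : ∀ x, e.symm (j x) = Sum.inr x := fun x => by
            rw [Equiv.symm_apply_eq]; rfl
          have h1 : (fun z => Sum.elim a.1 b.1 (e.symm z)) ∘ i = a.1 := by
            funext x; simp [hei]
          have h2 : (fun z => Sum.elim a.1 b.1 (e.symm z)) ∘ j = b.1 := by
            funext x; simp [hej]
          refine ⟨⟨fun z => Sum.elim a.1 b.1 (e.symm z), 𝓜.glue i j hij _ ?_ ?_⟩, ?_⟩
          · rw [h1]; exact a.2
          · rw [h2]; exact b.2
          · exact Prod.ext (Subtype.ext h1) (Subtype.ext h2)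
      empty := by
        intro X hX
        constructor
        intro a b
        apply Subtype.ext
        funext x
        exact hX.elim x }
  res_smul := fun f r m => rfl
  tr_smul := by
    intro X Y f r m
    exact Subtype.ext (fiberSum_smul f (r : 𝓕.F Y).1 m.1)
  smul_tr := by
    intro X Y f r m
    exact Subtype.ext (fiberSum_smul' f (r : 𝓕.F X).1 m.1)

end FunMod

end Pool.Agent.Helper59_Green
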